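import Pool.Agent.Helper42.PB.UPH
import Pool.Agent.Helper16.PP.BBLH
import Pool.Agent.Helper14.PP.BPRC
import Pool.Agent.Helper12.PP.BKAP

/-!
# Project B: V_BLH (the proof of B_BLH, for `sysB`, `V ⊆ Vis`)
-/

set_option autoImplicit false

namespace Pool.Agent.Helper42.PB

open NumberField Polynomial Module IsDedekindDomain
open Pool.Agent.Helper51.RP Pool.Agent.Helper42.RD Pool.Agent.Helper42.PP Pool.Agent.Helper42.PP1
open Pool.Agent.Helper76.PP Pool.Agent.Helper16.PP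
open Pool.Agent.Helper51.SigLeo (IwasawaLog)
open Pool.Agent.Helper51.PP (RC Chs)
open Pool.Agent.Helper17.PP (Sys)

theorem v_blh : V_BLH := by
  have h1 := v_uph
  have h2 := Pool.Agent.Helper14.PP.b_prc
  have h3 := Pool.Agent.Helper94.PP.b_idn
  intro p _ K M K₁ M₁ _ _ _ _ _ _ _ _ _ _ _ _ _ ε δ P _ hs B n E V s0 aτ hV ψ₁ hψ
  have := hs.st1
  have := hs.st2
  have := hs.gM
  have := hs.gK
  have := hs.gMK
  have hψ1 := Pool.Agent.Helper12.PP.kap_psi p ψ₁ hψ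
  obtain ⟨hm0, hid, hco⟩ := h3 p K K₁ B.S B.abp
  have hU := h1 p K M K₁ M₁ ε δ P hs B
  have hQ : ∀ q : B.LP, Above (B.Q q.1.1) q.1.1 ∧ FreeP K (B.Q q.1.1) := fun q =>
    B.Qa q.1.1 q.2
  have hqS : ∀ q : B.LP, q.1.1 ∉ B.S := fun q => q.2.1
  refine ⟨fun q s e => chI (modu p K₁ B.S * q.1.1.asIdeal.map (algebraMap (𝓞 K) (𝓞 K₁))) ψ₁
    (psH B q.1.1 (-(s * (e : ZMod p) * (q.1.2 : ZMod p)⁻¹))), ?_, ?_⟩
  · intro s e hs0
    refine ⟨hm0, ?_, ?_, ?_, ?_, ?_, ?_, ?_⟩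
    · rintro q ⟨_, hq⟩ q' ⟨_, hq'⟩ hqq
      have e1 : Above (B.Q q'.1.1) q.1.1 := by
        have := (hQ q).1
        rwa [show B.Q q.1.1 = B.Q q'.1.1 from hqq] at this
      have e2 : q.1.1 = q'.1.1 := by
        apply HeightOneSpectrum.ext
        exact e1.symm.trans (hQ q').1
      exact Subtype.ext (Prod.ext e2 (hq.trans hq'.symm))
    · intro q _
      exact ((hs.vis q.1.1 (val_p B.abp (hqS q))).2.2 (B.Q q.1.1) (hQ q).1
        (hQ q).2).1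
    · intro q _
      obtain ⟨a1, a2, a3, _⟩ := hid q.1.1
      exact ⟨a1, a2, a3.le⟩
    · intro q _
      exact (hid q.1.1).2.2.2.1 (hqS q)
    · intro q _ q' _ hne
      exact (hid q.1.1).2.2.2.2 q'.1.1 (fun h => hne h.symm)
    · intro q hq
      exact h2 p K₁ _ _ (hU q.1.1 (hV hq) _).1 ψ₁
    · intro q hq
      have hγ : -(s * (e : ZMod p) * (q.1.2 : ZMod p)⁻¹) ≠ 0 := by
        rw [neg_ne_zero]
        exact mul_ne_zero (mul_ne_zero hs0 e.ne_zero) (inv_ne_zero q.1.2.ne_zero)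
      obtain ⟨α, b1, b2, b3⟩ := (hU q.1.1 (hV hq) _).2.2 hγ
      exact ⟨α, b1, b2, chI_ne _ _ hψ1 _ _ b3⟩
  · intro s q q' hq hq'
    have hne : q'.1.1 ≠ q.1.1 := by
      intro h
      apply hq'
      show q'.1.1 ∈ V
      rw [h]
      exact hq
    have hc := hco q'.1.1 {q.1.1} (hqS q') (by rwa [Finset.mem_singleton]) (B.Q q'.1.1) (hQ q').1
    unfold mD at hc
    rw [Finset.prod_singleton] at hc
    show chI (modu p K₁ B.S * q.1.1.asIdeal.map (algebraMap (𝓞 K) (𝓞 K₁))) ψ₁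
      (psH B q.1.1 (-(s * (q'.1.2 : ZMod p) * (q.1.2 : ZMod p)⁻¹))) (B.Q q'.1.1).asIdeal = _
    rw [chI_eq _ _ _ _ (B.Q q'.1.1).ne_bot hc, (hU q.1.1 (hV hq) _).2.1 q'.1.1 q'.2]
    congr 1
    show _ = s * (-((q'.1.2 : ZMod p) * (q.1.2 : ZMod p)⁻¹ * B.pi q.1.1 q'.1.1))
    ring

end Pool.Agent.Helper42.PB
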