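import Pool.Agent.Helper42.PP1.Goals3

/-!
# Project B (MP_fc6b1e_nt, density theorem for general base characters): definitions

The base character is `χ₁ = χ₀ ψ₀`, `χ₀` of order `m` prime to `p` (field `M`), `ψ₀` of order a power of `p`, with
trivial restriction to the decomposition groups above `p`. `J` is the field of `ψ₀^p`, cyclic over `K` of
degree a power of `p` and split above `p`, `M₂ = M₁ J`, and `a₀ ∈ M₂` is the Kummer generator of `ψ₀` over
`M₂`: the field of `ψ₀`, times `M₂`, is `M₂(a₀^(1/p))`. If `φ` is a character of order `p` of the field `N`,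
`N K₁ = K₁(a^(1/p))`, then `M₂(a₀^(1/p), a^(1/p)) ⊇ M₂((a₀ a)^(1/p))`, which is the field of `ψ₀ φ` times `M₂`
(for the generator `a` of `φ` which has the same sign convention as `a₀`).
The Selmer group of `χ₀ ψ₀ φ` is `Sel L (above T) P δ (a₀ a)`, `a₀ a ∈ M₂`, with `M₂` in the place of `M₁`.

The visible primes are those split in `M₂`. For `v ∉ S` split in `K₁` and not in `M₂` the elements of the
Selmer group have valuations divisible by `p` above `v`, also if `φ` is ramified at `v`. At the visible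
ramified primes the self symbol is shifted by the logarithm `s0 v` of `a₀`.
-/

set_option autoImplicit false

namespace Pool.Agent.Helper42.PB

open NumberField Polynomial Module IsDedekindDomain
open Pool.Agent.Helper51.RP Pool.Agent.Helper42.RD Pool.Agent.Helper42.PP Pool.Agent.Helper42.PP1
open Pool.Agent.Helper51.SigLeo (IwasawaLog)
open Pool.Agent.Helper17.PP (Sys)

/-- The situation for a general base character. `degJ`: `J = K` is allowed (`ψ₀` of order `1` or `p`). -/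
structure SitB (p : ℕ) [Fact p.Prime] (K M K₁ M₁ J M₂ : Type) [Field K] [NumberField K] [Field M]
    [NumberField M] [Field K₁] [NumberField K₁] [Field M₁] [NumberField M₁] [Field J]
    [NumberField J] [Field M₂] [NumberField M₂] [Algebra K M] [Algebra K K₁] [Algebra K M₁]
    [Algebra M M₁] [Algebra K₁ M₁] [Algebra K J] [Algebra K M₂] [Algebra M M₂] [Algebra K₁ M₂]
    [Algebra M₁ M₂] [Algebra J M₂] (ε : K₁) (δ : M ≃ₐ[K] M) (P : (ZMod p)[X]) (a₀ : M₂ˣ) :
    Prop where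
  sit : SitW p K M K₁ M₁ ε δ P
  t1 : IsScalarTower K M₁ M₂
  t2 : IsScalarTower M M₁ M₂
  t3 : IsScalarTower K₁ M₁ M₂
  t4 : IsScalarTower K J M₂
  gJ : IsGalois K J
  gM₂ : IsGalois K M₂
  cycJ : IsCyclic (J ≃ₐ[K] J)
  degJ : ∃ l : ℕ, finrank K J = p ^ l
  lin₂ : ∀ g : M₂ ≃ₐ[K] M₂, (∀ x : M₁, g (algebraMap M₁ M₂ x) = algebraMap M₁ M₂ x) →
    (∀ x : J, g (algebraMap J M₂ x) = algebraMap J M₂ x) → g = 1
  om : OmType p K (algebraMap K₁ M₂ ε) (a₀ : M₂)
  cyc : ∀ σ : M₂ ≃ₐ[K] M₂, (∀ x : M₁, σ (algebraMap M₁ M₂ x) = algebraMap M₁ M₂ x) → σ ≠ 1 →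
    ∀ c : M₂, σ (a₀ : M₂) = (a₀ : M₂) * c ^ p → ∏ i ∈ Finset.range (orderOf σ), (σ ^ i) c ≠ 1

/-- `SitB` and the conditions at the primes above `p`: they are split in `J`, and `a₀` is a `p`-th power there. -/
structure SitBs (p : ℕ) [Fact p.Prime] (K M K₁ M₁ J M₂ : Type) [Field K] [NumberField K] [Field M]
    [NumberField M] [Field K₁] [NumberField K₁] [Field M₁] [NumberField M₁] [Field J]
    [NumberField J] [Field M₂] [NumberField M₂] [Algebra K M] [Algebra K K₁] [Algebra K M₁]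
    [Algebra M M₁] [Algebra K₁ M₁] [Algebra K J] [Algebra K M₂] [Algebra M M₂] [Algebra K₁ M₂]
    [Algebra M₁ M₂] [Algebra J M₂] (ε : K₁) (δ : M ≃ₐ[K] M) (P : (ZMod p)[X]) (a₀ : M₂ˣ) :
    Prop extends SitB p K M K₁ M₁ J M₂ ε δ P a₀ where
  splJ : ∀ w : HeightOneSpectrum (𝓞 J), w.valuation J (p : J) < 1 → FreeP K w
  powp : LocS p {W : HeightOneSpectrum (𝓞 M₂) | W.valuation M₂ (p : M₂) < 1} a₀

instance {p : ℕ} [Fact p.Prime] {K M K₁ M₁ J M₂ : Type} [Field K] [NumberField K] [Field M]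
    [NumberField M] [Field K₁] [NumberField K₁] [Field M₁] [NumberField M₁] [Field J]
    [NumberField J] [Field M₂] [NumberField M₂] [Algebra K M] [Algebra K K₁] [Algebra K M₁]
    [Algebra M M₁] [Algebra K₁ M₁] [Algebra K J] [Algebra K M₂] [Algebra M M₂] [Algebra K₁ M₂]
    [Algebra M₁ M₂] [Algebra J M₂] {ε : K₁} {δ : M ≃ₐ[K] M} {P : (ZMod p)[X]} {a₀ : M₂ˣ} :
    Coe (SitBs p K M K₁ M₁ J M₂ ε δ P a₀) (SitB p K M K₁ M₁ J M₂ ε δ P a₀) :=
  ⟨fun h => h.toSitB⟩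

/-- The additional data over a `Base`: `S` contains the primes ramified in `M₂` and in `M₂(a₀^(1/p))`, all the
divisors of the intermediate fields of `M₂/K` are principal outside `S`; `W₂ v` is a prime of `M₂` above
`W v` and `s0 v` is the logarithm of `a₀` at `W₂ v`. -/
structure BaseB {p : ℕ} [Fact p.Prime] {K M K₁ M₁ : Type} [Field K] [NumberField K] [Field M]
    [NumberField M] [Field K₁] [NumberField K₁] [Field M₁] [NumberField M₁] [Algebra K M]
    [Algebra K K₁] [Algebra K M₁] [Algebra M M₁] [Algebra K₁ M₁] {ε : K₁} {δ : M ≃ₐ[K] M}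
    {P : (ZMod p)[X]} (B : Base p K M K₁ M₁ ε δ P) {M₂ : Type} [Field M₂] [NumberField M₂]
    [Algebra K M₂] [Algebra M₁ M₂] (a₀ : M₂ˣ) where
  unr : ∀ v : HeightOneSpectrum (𝓞 K), v ∉ B.S → ∀ W : HeightOneSpectrum (𝓞 M₂), Above W v →
    ∀ x : K, ordv W (algebraMap K M₂ x) = ordv v x
  a₀S : ∀ W ∉ up M₂ B.S, (p : ℤ) ∣ ordv W (a₀ : M₂)
  pr : ∀ (F : IntermediateField K M₂) (n : HeightOneSpectrum (𝓞 F) →₀ ℤ),
    ∃ x : (F : Type)ˣ, ∀ w ∉ up F B.S, ordv w (x : F) = n w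
  W₂ : HeightOneSpectrum (𝓞 K) → HeightOneSpectrum (𝓞 M₂)
  W₂a : ∀ v ∈ Spl M₂ B.S, Above (W₂ v) v ∧ Above (W₂ v) (B.W v) ∧ FreeP K (W₂ v)
  s0 : HeightOneSpectrum (𝓞 K) → ZMod p
  s0P : ∀ v ∈ Spl M₂ B.S, ∃ x : Kˣ, ordv v (x : K) = 0 ∧ B.th v (inc K M₁ x) = s0 v ∧
    LocPow p (W₂ v) ((a₀ : M₂) * (algebraMap K M₂ (x : K))⁻¹)

/-- `n` independent `P`-functionals of local nature at `S`. -/
structure TauF {p : ℕ} [Fact p.Prime] {K M K₁ M₁ : Type} [Field K]
    [NumberField K] [Field M] [NumberField M] [Field K₁] [NumberField K₁] [Field M₁]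
    [NumberField M₁] [Algebra K M] [Algebra K K₁] [Algebra K M₁] [Algebra M M₁] [Algebra K₁ M₁]
    {ε : K₁} {δ : M ≃ₐ[K] M} {P : (ZMod p)[X]} (n : ℕ) (B : Base p K M K₁ M₁ ε δ P) where
  h : Fin n → Mˣ → AdjoinRoot P
  hP : ∀ j, IsP δ P (h j)
  hL : ∀ j x, LocS p (up M B.S) x → h j x = 0
  hI : ∀ c : Fin n → AdjoinRoot P, (∀ x, ∑ j, c j * h j x = 0) → c = 0

/-- They express the local conditions of `a₀ aτ` at the primes of `M₂` above `S` and at the places of `T`. -/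
structure TauB {p : ℕ} [Fact p.Prime] {k : Type} [NormedField k] {K M K₁ M₁ : Type} [Field K]
    [NumberField K] [Field M] [NumberField M] [Field K₁] [NumberField K₁] [Field M₁]
    [NumberField M₁] [Algebra K M] [Algebra K K₁] [Algebra K M₁] [Algebra M M₁] [Algebra K₁ M₁]
    {ε : K₁} {δ : M ≃ₐ[K] M} {P : (ZMod p)[X]} (n : ℕ) (B : Base p K M K₁ M₁ ε δ P)
    {M₂ : Type} [Field M₂] [NumberField M₂] [Algebra K M₂] [Algebra M M₂] [Algebra K₁ M₂]
    (a₀ : M₂ˣ) (L : IwasawaLog p k) (T : Set (K →+* k)) (aτ : K₁ˣ) extends TauF n B where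
  hS : ∀ j x, Pw p (pol P δ x) → (∀ W ∈ up M₂ B.S,
    LocAt p W ((a₀ : M₂) * algebraMap K₁ M₂ (aτ : K₁)) (algebraMap M M₂ (x : M))) →
    LocSig L (above T) x → h j x = 0

/-- A `TauN` is a `TauF`. -/
def ofTauN {p : ℕ} [Fact p.Prime] {k : Type} [NormedField k] {K M K₁ M₁ : Type} [Field K]
    [NumberField K] [Field M] [NumberField M] [Field K₁] [NumberField K₁] [Field M₁]
    [NumberField M₁] [Algebra K M] [Algebra K K₁] [Algebra K M₁] [Algebra M M₁] [Algebra K₁ M₁]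
    {ε : K₁} {δ : M ≃ₐ[K] M} {P : (ZMod p)[X]} {n : ℕ} {B : Base p K M K₁ M₁ ε δ P}
    {L : IwasawaLog p k} {T : Set (K →+* k)} {aτ : K₁ˣ} (E : TauN n B L T aτ) : TauF n B where
  h := E.h
  hP := E.hP
  hL := E.hL
  hI := E.hI

section sysB

variable {p : ℕ} [Fact p.Prime] {K M K₁ M₁ : Type} [Field K]
    [NumberField K] [Field M] [NumberField M] [Field K₁] [NumberField K₁] [Field M₁]
    [NumberField M₁] [Algebra K M] [Algebra K K₁] [Algebra K M₁] [Algebra M M₁] [Algebra K₁ M₁]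
    {ε : K₁} {δ : M ≃ₐ[K] M} {P : (ZMod p)[X]} [Fact (Irreducible P)] {n : ℕ}
    (B : Base p K M K₁ M₁ ε δ P) (E : TauF n B) (V : Set (HeightOneSpectrum (𝓞 K)))
    (s0 : HeightOneSpectrum (𝓞 K) → ZMod p) (aτ : K₁ˣ)

/-- The abstract system: the visible primes are those of `V`, `s0` is added to the logarithm of `aτ`. With
`V = B.Vis` and `s0 = 0` it is the system `sysN`. -/
noncomputable def sysB : Sys p B.LP (HeightOneSpectrum (𝓞 K))
    (AdjoinRoot P) (Fin B.r → AdjoinRoot P) (Fin n → AdjoinRoot P) (Fin B.t → ZMod p) where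
  bs q := q.1.1
  N q := Ideal.absNorm q.1.1.asIdeal
  spl q := q.1.1 ∈ V
  cls q j := (q.1.2 : ZMod p) * B.cl j q.1.1
  cl₀ j := B.ch j aτ
  lam₀ := LinearMap.pi fun j ↦ ∑ i, (LinearMap.proj i).smulRight (E.h j (B.u i))
  lam q := LinearMap.pi fun j ↦
    LinearMap.id.smulRight (B.til (E.h j) (nrm M M₁ (B.z q.1.1)))
  res q := ∑ i, (LinearMap.proj i).smulRight (B.R q.1.1 (B.u i))
  a q q' := B.A q.1.1 q'.1.1
  dg q := B.A q.1.1 q.1.1 - algebraMap (ZMod p) (AdjoinRoot P)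
    ((q.1.2 : ZMod p)⁻¹ * (B.sv aτ q.1.1 + s0 q.1.1) + B.pi q.1.1 q.1.1)
  kap q q' := - ((q'.1.2 : ZMod p) * (q.1.2 : ZMod p)⁻¹ * B.pi q.1.1 q'.1.1)
  two_le q := by
    have h1 : Ideal.absNorm q.1.1.asIdeal ≠ 1 := by
      rw [Ne, Ideal.absNorm_eq_one_iff]
      exact q.1.1.isPrime.ne_top
    have h0 : Ideal.absNorm q.1.1.asIdeal ≠ 0 := by
      rw [Ne, Ideal.absNorm_eq_zero_iff]
      exact q.1.1.ne_bot
    omega
  fin Z := by
    have h : {v : HeightOneSpectrum (𝓞 K) | Ideal.absNorm v.asIdeal ≤ Z}.Finite := by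
      refine Set.Finite.of_finite_image (f := HeightOneSpectrum.asIdeal) ?_ ?_
      · refine (Ideal.finite_setOfPred_absNorm_le (S := 𝓞 K) Z).subset ?_
        rintro _ ⟨v, hv, rfl⟩
        exact hv
      · intro v _ w _ h
        exact HeightOneSpectrum.ext h
    have h2 : (({v : HeightOneSpectrum (𝓞 K) | Ideal.absNorm v.asIdeal ≤ Z}) ×ˢ
        (Set.univ : Set (ZMod p)ˣ)).Finite := h.prod Set.finite_univ
    refine Set.Finite.of_finite_image (f := Subtype.val) (h2.subset ?_)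
      Subtype.val_injective.injOn
    rintro _ ⟨q, hq, rfl⟩
    exact ⟨hq, Set.mem_univ _⟩
  bsN q q' h := by
    have h' : q.1.1 = q'.1.1 := h
    rw [h']
  bsS q q' h := by
    have h' : q.1.1 = q'.1.1 := h
    rw [h']

end sysB

end Pool.Agent.Helper42.PB
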