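import Pool.Agent.Helper42.PB.Defs

/-!
# Project B (general base characters): the statements over `SitB`, `BaseB`, `TauB`, `sysB`

`V = Spl M₂ B.S`. The statements `V_LAB`, `V_SMF`, `V_BLU`, `V_UPH`, `V_BLH` are those of PP1 for `TauF` and `sysB`,
with the same proofs. New: `V_SLG`, `V_NSP`, `V_SEL` (Selmer elements for `a₀ a` give solutions), `V_SM`,
`V_KUM` (primes split in `M₂`), and the existence statements `V_EXB`, `V_EXT`.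
-/

set_option autoImplicit false

namespace Pool.Agent.Helper42.PB

open NumberField Polynomial Module IsDedekindDomain
open Pool.Agent.Helper51.RP Pool.Agent.Helper42.RD Pool.Agent.Helper42.PP Pool.Agent.Helper42.PP1
open Pool.Agent.Helper51.SigLeo (IwasawaLog)
open Pool.Agent.Helper51.PP (RC Chs)
open Pool.Agent.Helper17.PP (Sys)
open Pool.Agent.Helper76.PP

/-- The `P`-functional `∑_j β_j h_j + ∑_{v ∈ D} y_v R_v` on `Mˣ`. -/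
noncomputable def fSF {p : ℕ} [Fact p.Prime] {K M K₁ M₁ : Type} [Field K] [NumberField K] [Field M]
    [NumberField M] [Field K₁] [NumberField K₁] [Field M₁] [NumberField M₁] [Algebra K M]
    [Algebra K K₁] [Algebra K M₁] [Algebra M M₁] [Algebra K₁ M₁] {ε : K₁} {δ : M ≃ₐ[K] M}
    {P : (ZMod p)[X]} {n : ℕ} (B : Base p K M K₁ M₁ ε δ P) (E : TauF n B)
    (β : Fin n → AdjoinRoot P) (D : Finset (HeightOneSpectrum (𝓞 K)))
    (y : HeightOneSpectrum (𝓞 K) → AdjoinRoot P) (x : Mˣ) : AdjoinRoot P :=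
  ∑ j, β j * E.h j x + ∑ v ∈ D, y v * B.R v x

/-- **V_LAB**: `W_LAB` for `TauF` and `sysB` (the labels do not depend on `E`, `V`, `s0`). -/
def V_LAB : Prop :=
  ∀ (p : ℕ) [Fact p.Prime] (k : Type) [NormedField k] [NormedAlgebra ℚ_[p] k] (_ : IwasawaLog p k)
    (K M K₁ M₁ : Type) [Field K] [NumberField K] [Field M] [NumberField M] [Field K₁]
    [NumberField K₁] [Field M₁] [NumberField M₁] [Algebra K M] [Algebra K K₁] [Algebra K M₁]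
    [Algebra M M₁] [Algebra K₁ M₁] (ε : K₁) (δ : M ≃ₐ[K] M) (P : (ZMod p)[X])
    [Fact (Irreducible P)], SitW p K M K₁ M₁ ε δ P →
  ∀ (B : Base p K M K₁ M₁ ε δ P) (aτ : K₁ˣ) (n : ℕ) (E : TauF n B)
    (V : Set (HeightOneSpectrum (𝓞 K))) (s0 : HeightOneSpectrum (𝓞 K) → ZMod p),
    OmType p K ε (aτ : K₁) →
  (∀ a : K₁ˣ, OmType p K ε (a : K₁) → (B.labs a).Finite ∧
    (∀ v ∈ B.calP, ∀ W : HeightOneSpectrum (𝓞 M₁), Above W v →
      ((p : ℤ) ∣ ordv W (algebraMap K₁ M₁ (a : K₁)) ↔ ordp p (B.Q v) a = 0)) ∧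
    (∀ v ∉ B.S, v ∉ B.calP → ∀ W : HeightOneSpectrum (𝓞 M₁), Above W v →
      (p : ℤ) ∣ ordv W (algebraMap K₁ M₁ (a : K₁))) ∧
    (LocS p (up K₁ B.S) (a / aτ) → (sysB B E V s0 aτ).Fam (B.lab a))) ∧
  (∀ b : Finset B.LP, (sysB B E V s0 aτ).Fam b → ∃ a : K₁ˣ, OmType p K ε (a : K₁) ∧
    LocS p (up K₁ B.S) (a / aτ) ∧ B.lab a = b) ∧
  (∀ a a' : K₁ˣ, OmType p K ε (a : K₁) → OmType p K ε (a' : K₁) →
    LocS p (up K₁ B.S) (a / aτ) → LocS p (up K₁ B.S) (a' / aτ) → B.lab a = B.lab a' →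
    Pw p (a / a')) ∧
  ∀ γ : Fin B.t → ZMod p, ∃ b : Finset B.LP, Set.InjOn (sysB B E V s0 aτ).bs (b : Set B.LP) ∧
    ∑ q ∈ b, (sysB B E V s0 aτ).cls q = γ

/-- **V_SLG** (stability under `δ`, and the conditions at `S` depend only on the local class). `M₂` is any
Galois extension of `K` which contains `M` and `ε`. -/
def V_SLG : Prop :=
  ∀ (p : ℕ) [Fact p.Prime] (k : Type) [NormedField k] [NormedAlgebra ℚ_[p] k]
    [IsUltrametricDist k] (K M K₁ M₁ J M₂ : Type) [Field K] [NumberField K] [Field M]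
    [NumberField M] [Field K₁] [NumberField K₁] [Field M₁] [NumberField M₁] [Field J]
    [NumberField J] [Field M₂] [NumberField M₂] [Algebra K M] [Algebra K K₁] [Algebra K M₁]
    [Algebra M M₁] [Algebra K₁ M₁] [Algebra K J] [Algebra K M₂] [Algebra M M₂] [Algebra K₁ M₂]
    [Algebra M₁ M₂] [Algebra J M₂] (ε : K₁) (δ : M ≃ₐ[K] M) (P : (ZMod p)[X]) (a₀ : M₂ˣ),
    SitB p K M K₁ M₁ J M₂ ε δ P a₀ →
  ∀ (L : IwasawaLog p k) (T : Set (K →+* k)) (S : Finset (HeightOneSpectrum (𝓞 K))) (a : K₁ˣ),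
    OmType p K ε (a : K₁) →
  (∀ x : Mˣ, Sel L (above T) P δ ((a₀ : M₂) * algebraMap K₁ M₂ (a : K₁)) x →
    Sel L (above T) P δ ((a₀ : M₂) * algebraMap K₁ M₂ (a : K₁)) (act δ x)) ∧
  ∀ aτ : K₁ˣ, LocS p (up K₁ S) (a / aτ) → ∀ W ∈ up M₂ S, ∀ x : M₂,
    (LocAt p W ((a₀ : M₂) * algebraMap K₁ M₂ (a : K₁)) x ↔
      LocAt p W ((a₀ : M₂) * algebraMap K₁ M₂ (aτ : K₁)) x)

/-- **V_NSP** (the primes which are not visible). If the prime `W` of `M₂`, `W ∉ up M₂ S`, has a decomposition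
group over `M₁` which is not trivial, then `Tame p W (a₀ a) x`, `a ∈ K₁`, `x ∈ M`, implies `p ∣ ord_W(x)`.

PROOF. Let `σ ≠ 1` be in the decomposition group, `σ a₀ = a₀ c^p` (`om`; `σ ε = ε`), `n` the order of `σ`, a
power of `p`, `n > 1` (restriction to `J`, `lin₂`). `Tame`: `x (± a₀ a)^i y^p ≡ 1 mod W`. If `p ∣ i` then
`p ∣ ord_W(x)`. Otherwise, taking a power, `a₀ t y^p ≡ 1 mod W` with `t ∈ M₁ˣ`. Apply `σ` and divide:
`(c σ(y)/y)^p ≡ 1`, so `c σ(y)/y ≡ ε^i mod W`; take the product of the conjugates under `⟨σ⟩`: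
`N(c) ≡ ε^(i n) = 1 mod W`, and `N(c)^p = N(σ a₀/a₀) = 1`, so `N(c) = ε^j`, `ε^j ≡ 1 mod W`, so `N(c) = 1`
(`W ∤ p`). This contradicts `cyc`. -/
def V_NSP : Prop :=
  ∀ (p : ℕ) [Fact p.Prime] (K M K₁ M₁ J M₂ : Type) [Field K] [NumberField K] [Field M]
    [NumberField M] [Field K₁] [NumberField K₁] [Field M₁] [NumberField M₁] [Field J]
    [NumberField J] [Field M₂] [NumberField M₂] [Algebra K M] [Algebra K K₁] [Algebra K M₁]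
    [Algebra M M₁] [Algebra K₁ M₁] [Algebra K J] [Algebra K M₂] [Algebra M M₂] [Algebra K₁ M₂]
    [Algebra M₁ M₂] [Algebra J M₂] (ε : K₁) (δ : M ≃ₐ[K] M) (P : (ZMod p)[X]) (a₀ : M₂ˣ),
    SitB p K M K₁ M₁ J M₂ ε δ P a₀ →
  ∀ W : HeightOneSpectrum (𝓞 M₂), W.valuation M₂ (p : M₂) = 1 →
    ∀ σ : M₂ ≃ₐ[K] M₂, (∀ x : M₁, σ (algebraMap M₁ M₂ x) = algebraMap M₁ M₂ x) → σ ≠ 1 →
    (∀ y : M₂, W.valuation M₂ (σ y) = W.valuation M₂ y) →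
  ∀ (a : K₁ˣ) (x : Mˣ), Tame p W ((a₀ : M₂) * algebraMap K₁ M₂ (a : K₁))
    (algebraMap M M₂ (x : M)) → (p : ℤ) ∣ ordv W (algebraMap M M₂ (x : M))

/-- **V_SEL** (main result of this file). If the Selmer group of `a₀ a` is not trivial then the labels of `a`
are bad for the system `sysB` with `V = Spl M₂ S`. -/
def V_SEL : Prop :=
  ∀ (p : ℕ) [Fact p.Prime] (k : Type) [NormedField k] [NormedAlgebra ℚ_[p] k]
    [IsUltrametricDist k] (K M K₁ M₁ J M₂ : Type) [Field K] [NumberField K] [Field M]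
    [NumberField M] [Field K₁] [NumberField K₁] [Field M₁] [NumberField M₁] [Field J]
    [NumberField J] [Field M₂] [NumberField M₂] [Algebra K M] [Algebra K K₁] [Algebra K M₁]
    [Algebra M M₁] [Algebra K₁ M₁] [Algebra K J] [Algebra K M₂] [Algebra M M₂] [Algebra K₁ M₂]
    [Algebra M₁ M₂] [Algebra J M₂] (ε : K₁) (δ : M ≃ₐ[K] M) (P : (ZMod p)[X])
    [Fact (Irreducible P)] (a₀ : M₂ˣ), SitB p K M K₁ M₁ J M₂ ε δ P a₀ →
  ∀ (L : IwasawaLog p k) (T : Set (K →+* k)) (B : Base p K M K₁ M₁ ε δ P) (D : BaseB B a₀)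
    (aτ : K₁ˣ) (n : ℕ) (E : TauB n B a₀ L T aτ), OmType p K ε (aτ : K₁) →
  ∀ a : K₁ˣ, OmType p K ε (a : K₁) → LocS p (up K₁ B.S) (a / aτ) →
    (∃ x : Mˣ, Sel L (above T) P δ ((a₀ : M₂) * algebraMap K₁ M₂ (a : K₁)) x ∧ ¬ Pw p x) →
  (sysB B E.toTauF (Spl M₂ B.S) D.s0 aτ).Bad (B.lab a)

/-- **V_SMF**: `W_SMF` for `TauF`, with the same proof. -/
def V_SMF : Prop :=
  ∀ (p : ℕ) [Fact p.Prime] (K M K₁ M₁ : Type) [Field K] [NumberField K] [Field M] [NumberField M]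
    [Field K₁] [NumberField K₁] [Field M₁] [NumberField M₁] [Algebra K M] [Algebra K K₁]
    [Algebra K M₁] [Algebra M M₁] [Algebra K₁ M₁] (ε : K₁)
    (δ : M ≃ₐ[K] M) (P : (ZMod p)[X]), SitW p K M K₁ M₁ ε δ P →
  ∀ (B : Base p K M K₁ M₁ ε δ P) (n : ℕ) (E : TauF n B)
    (tr : AdjoinRoot P →ₗ[ZMod p] ZMod p), tr ≠ 0 →
  ∀ (β : Fin n → AdjoinRoot P) (D : Finset (HeightOneSpectrum (𝓞 K)))
    (y : HeightOneSpectrum (𝓞 K) → AdjoinRoot P), (∀ v ∈ D, v ∈ B.Vis ∧ y v ≠ 0) →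
    (D.Nonempty ∨ β ≠ 0) → (∀ i, fSF B E β D y (B.u i) = 0) →
  Psi p (mD p M₁ B.S D) (idl (up M₁ B.S) (fun x ↦ tr (fSF B E β D y (nrm M M₁ x)))) ∧
  (∃ I : Ideal (𝓞 M₁), I ≠ ⊥ ∧ I ⊔ mD p M₁ B.S D = ⊤ ∧
    idl (up M₁ B.S) (fun x ↦ tr (fSF B E β D y (nrm M M₁ x))) I ≠ 0 ∧
    (D.Nonempty → ∃ α : 𝓞 M₁, I = Ideal.span {α})) ∧
  (∀ q ∈ B.Vis, fSF B E β D y (nrm M M₁ (B.z q)) =
    ∑ j, β j * B.til (E.h j) (nrm M M₁ (B.z q)) + ∑ v ∈ D, y v * B.A v q) ∧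
  ∀ q ∈ B.Vis, fSF B E β D y (nrm M M₁ (B.z q)) = 0 →
    ∀ W : HeightOneSpectrum (𝓞 M₁), Above W q → FreeP K W →
      idl (up M₁ B.S) (fun x ↦ tr (fSF B E β D y (nrm M M₁ x))) W.asIdeal = 0

/-- **V_BLU**: `W_BLU` for `sysB`, `V ⊆ Vis`, with the same proof. -/
def V_BLU : Prop :=
  ∀ (p : ℕ) [Fact p.Prime] (K M K₁ M₁ : Type) [Field K] [NumberField K] [Field M] [NumberField M]
    [Field K₁] [NumberField K₁] [Field M₁] [NumberField M₁] [Algebra K M] [Algebra K K₁]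
    [Algebra K M₁] [Algebra M M₁] [Algebra K₁ M₁] (ε : K₁)
    (δ : M ≃ₐ[K] M) (P : (ZMod p)[X]) [Fact (Irreducible P)], SitW p K M K₁ M₁ ε δ P →
    NTV p M₁ ε δ P →
  ∀ (B : Base p K M K₁ M₁ ε δ P) (n : ℕ) (E : TauF n B) (V : Set (HeightOneSpectrum (𝓞 K)))
    (s0 : HeightOneSpectrum (𝓞 K) → ZMod p) (aτ : K₁ˣ), V ⊆ B.Vis →
  ∀ (tr : AdjoinRoot P →ₗ[ZMod p] ZMod p) (ψ₁ : AddChar (ZMod p) ℂ), tr ≠ 0 → ψ₁ ≠ 1 →
  ∃ Xd : B.LP → AdjoinRoot P → AdjoinRoot P → AdjoinRoot P → (ZMod p)ˣ → Ideal (𝓞 M₁) → ℂ,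
    (∀ (y c : B.LP → AdjoinRoot P) (t : AdjoinRoot P) (e : (ZMod p)ˣ), t ≠ 0 →
      Chs (sysB B E V s0 aτ) M₁ (modu p M₁ B.S)
        (fun q ↦ q.1.1.asIdeal.map (algebraMap (𝓞 K) (𝓞 M₁))) (finrank K M₁)
        {q | (sysB B E V s0 aτ).spl q ∧ q.1.2 = e} {q | (sysB B E V s0 aτ).spl q ∧ y q ≠ 0}
        (fun q ↦ B.W q.1.1) (fun q ↦ Xd q (y q) (c q) t e)) ∧
    ∀ (y c t : AdjoinRoot P) (q q' : B.LP), (sysB B E V s0 aτ).spl q →
      (sysB B E V s0 aτ).spl q' → (sysB B E V s0 aτ).bs q ≠ (sysB B E V s0 aτ).bs q' →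
      Xd q' y c t q.1.2 (B.W q.1.1).asIdeal =
        psK tr ψ₁ (y * (t * (sysB B E V s0 aτ).a q' q +
          c * algebraMap (ZMod p) (AdjoinRoot P) ((sysB B E V s0 aτ).kap q' q)))

/-- **V_UPH**: `B_UPH` for `SitW`, with the same proof. -/
def V_UPH : Prop :=
  ∀ (p : ℕ) [Fact p.Prime] (K M K₁ M₁ : Type) [Field K] [NumberField K] [Field M] [NumberField M]
    [Field K₁] [NumberField K₁] [Field M₁] [NumberField M₁] [Algebra K M] [Algebra K K₁]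
    [Algebra K M₁] [Algebra M M₁] [Algebra K₁ M₁] (ε : K₁)
    (δ : M ≃ₐ[K] M) (P : (ZMod p)[X]), SitW p K M K₁ M₁ ε δ P →
  ∀ B : Base p K M K₁ M₁ ε δ P, ∀ v ∈ B.Vis, ∀ γ : ZMod p,
  Psi p (modu p K₁ B.S * v.asIdeal.map (algebraMap (𝓞 K) (𝓞 K₁))) (psH B v γ) ∧
  (∀ l ∈ B.calP, psH B v γ (B.Q l).asIdeal = γ * B.pi v l) ∧
  (γ ≠ 0 → ∃ α : 𝓞 K₁, α - 1 ∈ modu p K₁ B.S ∧
    Ideal.span {α} ⊔ v.asIdeal.map (algebraMap (𝓞 K) (𝓞 K₁)) = ⊤ ∧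
    psH B v γ (Ideal.span {α}) ≠ 0)

/-- **V_BLH**: `B_BLH` for `sysB`, `V ⊆ Vis`, with the same proof: the upper primes are those of `calP ∖ V`. -/
def V_BLH : Prop :=
  ∀ (p : ℕ) [Fact p.Prime] (K M K₁ M₁ : Type) [Field K] [NumberField K] [Field M] [NumberField M]
    [Field K₁] [NumberField K₁] [Field M₁] [NumberField M₁] [Algebra K M] [Algebra K K₁]
    [Algebra K M₁] [Algebra M M₁] [Algebra K₁ M₁] (ε : K₁)
    (δ : M ≃ₐ[K] M) (P : (ZMod p)[X]) [Fact (Irreducible P)], SitW p K M K₁ M₁ ε δ P →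
  ∀ (B : Base p K M K₁ M₁ ε δ P) (n : ℕ) (E : TauF n B) (V : Set (HeightOneSpectrum (𝓞 K)))
    (s0 : HeightOneSpectrum (𝓞 K) → ZMod p) (aτ : K₁ˣ), V ⊆ B.Vis →
  ∀ (ψ₁ : AddChar (ZMod p) ℂ), ψ₁ ≠ 1 →
  ∃ Xd : B.LP → ZMod p → (ZMod p)ˣ → Ideal (𝓞 K₁) → ℂ,
    (∀ (s : ZMod p) (e : (ZMod p)ˣ), s ≠ 0 →
      Chs (sysB B E V s0 aτ) K₁ (modu p K₁ B.S)
        (fun q ↦ q.1.1.asIdeal.map (algebraMap (𝓞 K) (𝓞 K₁))) (finrank K K₁)
        {q | ¬ (sysB B E V s0 aτ).spl q ∧ q.1.2 = e} {q | (sysB B E V s0 aτ).spl q}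
        (fun q ↦ B.Q q.1.1) (fun q ↦ Xd q s e)) ∧
    ∀ (s : ZMod p) (q q' : B.LP), (sysB B E V s0 aτ).spl q → ¬ (sysB B E V s0 aτ).spl q' →
      Xd q s q'.1.2 (B.Q q'.1.1).asIdeal = ψ₁ (s * (sysB B E V s0 aτ).kap q q')

/-- **V_SM** (the field `sm` for `sysB`, helper76: proof without reciprocity, by the first inequality in the
tower `M₂/M₁`). -/
def V_SM : Prop :=
  ∀ (p : ℕ) [Fact p.Prime] (K M K₁ M₁ J M₂ : Type) [Field K] [NumberField K] [Field M]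
    [NumberField M] [Field K₁] [NumberField K₁] [Field M₁] [NumberField M₁] [Field J]
    [NumberField J] [Field M₂] [NumberField M₂] [IsTotallyComplex M₁] [Algebra K M] [Algebra K K₁]
    [Algebra K M₁] [Algebra M M₁] [Algebra K₁ M₁] [Algebra K J] [Algebra K M₂] [Algebra M M₂]
    [Algebra K₁ M₂] [Algebra M₁ M₂] [Algebra J M₂] (ε : K₁) (δ : M ≃ₐ[K] M) (P : (ZMod p)[X])
    [Fact (Irreducible P)] (a₀ : M₂ˣ), SitB p K M K₁ M₁ J M₂ ε δ P a₀ → NTV p M₁ ε δ P →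
  ∀ (B : Base p K M K₁ M₁ ε δ P) (D : BaseB B a₀) (n : ℕ) (E : TauF n B) (aτ : K₁ˣ)
    (tr : AdjoinRoot P →ₗ[ZMod p] ZMod p) (ψ₁ : AddChar (ZMod p) ℂ), tr ≠ 0 → ψ₁ ≠ 1 →
  ∃ K₀ : ℕ, 1 ≤ K₀ ∧ ∀ K' : ℕ, K₀ ≤ K' →
    SmF (sysB B E (Spl M₂ B.S) D.s0 aτ) (psK tr ψ₁) K'

/-- **V_KUM** (the field `kum` for `sysB`, helper76). -/
def V_KUM : Prop :=
  ∀ (p : ℕ) [Fact p.Prime] (K M K₁ M₁ J M₂ : Type) [Field K] [NumberField K] [Field M]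
    [NumberField M] [Field K₁] [NumberField K₁] [Field M₁] [NumberField M₁] [Field J]
    [NumberField J] [Field M₂] [NumberField M₂] [Algebra K M] [Algebra K K₁]
    [Algebra K M₁] [Algebra M M₁] [Algebra K₁ M₁] [Algebra K J] [Algebra K M₂] [Algebra M M₂]
    [Algebra K₁ M₂] [Algebra M₁ M₂] [Algebra J M₂] (ε : K₁) (δ : M ≃ₐ[K] M) (P : (ZMod p)[X])
    [Fact (Irreducible P)] (a₀ : M₂ˣ), SitB p K M K₁ M₁ J M₂ ε δ P a₀ → NTV p M₁ ε δ P →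
  ∀ (B : Base p K M K₁ M₁ ε δ P) (D : BaseB B a₀) (n : ℕ) (E : TauF n B) (aτ : K₁ˣ),
    KumF (sysB B E (Spl M₂ B.S) D.s0 aτ)

/-- **V_EXB** (existence of the base data, helper94). -/
def V_EXB : Prop :=
  ∀ (p : ℕ) [Fact p.Prime] (K M K₁ M₁ J M₂ : Type) [Field K] [NumberField K] [Field M]
    [NumberField M] [Field K₁] [NumberField K₁] [Field M₁] [NumberField M₁] [Field J]
    [NumberField J] [Field M₂] [NumberField M₂] [Algebra K M] [Algebra K K₁]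
    [Algebra K M₁] [Algebra M M₁] [Algebra K₁ M₁] [Algebra K J] [Algebra K M₂] [Algebra M M₂]
    [Algebra K₁ M₂] [Algebra M₁ M₂] [Algebra J M₂] (ε : K₁) (δ : M ≃ₐ[K] M) (P : (ZMod p)[X])
    (a₀ : M₂ˣ), SitB p K M K₁ M₁ J M₂ ε δ P a₀ →
  ∃ B : Base p K M K₁ M₁ ε δ P, Nonempty (BaseB B a₀)

/-- **V_EXT** (existence of `TauB`), from a lower bound `hlob` for the number of local conditions, which is
proved as for `TauN` (`Helper94.PP1.extW`).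

PROOF (as `extW`; the new point is the comparison at `w ∈ up M S`, `FreeP K w`, `v` below `w`, `v ∤ p`). Let
`W` be a prime of `M₂` above `w`, `α = a₀ aτ`, `D` its decomposition group in `Gal(M₂/M₁)` (cyclic), `I` its
inertia group. The classes modulo local `p`-th powers of the `x ∈ M` with `LocAt p W α x` for all `W` above
`w` are contained in a line, which is `p ∣ ord_w(x)` or the line of a uniformizer `al w ∈ K`. (i) `D = 1`: as in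
`extW`. (ii) `I ≠ 1` implies `p ∤ ord_W(α)`: otherwise let `β = α y^p` be a unit at `W`, `σ ∈ I`, `σ ≠ 1`,
`σ β = β c'^p`, `N(c') = N(c) ≠ 1` by `cyc`; `c'^p ≡ 1`, `c' ≡ ε^i mod W`, `N(c') ≡ 1`, contradiction. (iii)
`D ≠ 1`: if `p ∣ ord_W(α)` then `I = 1` by (ii) and `p ∣ ord_W(x)` gives `p ∣ ord_w(x)`; if `p ∤ ord_W(α)`, by the
proof of `V_NSP`, `x` is locally a `p`-th power at `W`. The elements of `M_w*` which are `p`-th powers at `W` form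
modulo `p`-th powers the Kummer line of the bottom layer of `M₂/M₁` at `W`, as `D` is cyclic. -/
def V_EXT : Prop :=
  ∀ (p : ℕ) [Fact p.Prime] (k : Type) [NormedField k] [NormedAlgebra ℚ_[p] k]
    [IsUltrametricDist k] (K M K₁ M₁ J M₂ : Type) [Field K] [NumberField K] [Field M]
    [NumberField M] [Field K₁] [NumberField K₁] [Field M₁] [NumberField M₁] [Field J]
    [NumberField J] [Field M₂] [NumberField M₂] [Algebra K M] [Algebra K K₁]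
    [Algebra K M₁] [Algebra M M₁] [Algebra K₁ M₁] [Algebra K J] [Algebra K M₂] [Algebra M M₂]
    [Algebra K₁ M₂] [Algebra M₁ M₂] [Algebra J M₂] (ε : K₁) (δ : M ≃ₐ[K] M) (P : (ZMod p)[X])
    (a₀ : M₂ˣ), SitBs p K M K₁ M₁ J M₂ ε δ P a₀ →
  ∀ (L : IwasawaLog p k) (T : Set (K →+* k)) (B : Base p K M K₁ M₁ ε δ P) (_ : BaseB B a₀)
    (aτ : K₁ˣ), OmType p K ε (aτ : K₁) →
    (∀ Q : HeightOneSpectrum (𝓞 K₁), Q.valuation K₁ (p : K₁) < 1 → (p : ℤ) ∣ ordv Q (aτ : K₁)) →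
  ∀ n : ℕ, (∀ (𝔪₀ : Ideal (𝓞 M)) (v : Mˣ → HeightOneSpectrum (𝓞 M) → ZMod p),
      LSys δ T (up M B.S) 𝔪₀ v → ∃ F : Finset Mˣ, F.card = p ^ (P.natDegree * n) ∧
      (∀ x ∈ F, LSat L (above T) (up M B.S) v (pol P δ x)) ∧
      ∀ x ∈ F, ∀ y ∈ F, x ≠ y → ¬ LSat L (above T) (up M B.S) v (x / y)) →
  Nonempty (TauB n B a₀ L T aτ)

end Pool.Agent.Helper42.PB
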