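import Pool.Agent.Helper42.PB.Goals
import Pool.Agent.Helper42.PP1.LAB

/-!
# Project B: V_LAB
-/

set_option autoImplicit false

namespace Pool.Agent.Helper42.PB

open NumberField Polynomial Module IsDedekindDomain
open Pool.Agent.Helper51.RP Pool.Agent.Helper42.RD Pool.Agent.Helper42.PP Pool.Agent.Helper42.PP1
open Pool.Agent.Helper51.SigLeo (IwasawaLog)

/-- The empty system of functionals. -/
def tau0 {p : ℕ} [Fact p.Prime] {k : Type} [NormedField k] {K M K₁ M₁ : Type} [Field K]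
    [NumberField K] [Field M] [NumberField M] [Field K₁] [NumberField K₁] [Field M₁]
    [NumberField M₁] [Algebra K M] [Algebra K K₁] [Algebra K M₁] [Algebra M M₁] [Algebra K₁ M₁]
    {ε : K₁} {δ : M ≃ₐ[K] M} {P : (ZMod p)[X]} (B : Base p K M K₁ M₁ ε δ P) (L : IwasawaLog p k)
    (T : Set (K →+* k)) (aτ : K₁ˣ) : TauN 0 B L T aτ where
  h := fun j => j.elim0
  hP := fun j => j.elim0
  hL := fun j => j.elim0
  hS := fun j => j.elim0
  hI := fun _ _ => Subsingleton.elim _ _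

theorem v_lab : V_LAB := by
  intro p _ k _ _ L K M K₁ M₁ _ _ _ _ _ _ _ _ _ _ _ _ _ ε δ P _ hs B aτ n E V s0 haτ
  exact w_lab p k K M K₁ M₁ ε δ P hs L ∅ B aτ 0 (tau0 B L ∅ aτ) haτ

end Pool.Agent.Helper42.PB
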