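import Pool.Agent.Helper42.PB.Goals
import Pool.Agent.Helper42.PP1.SLG

/-!
# Project B: V_SLG
-/

set_option autoImplicit false
set_option linter.unusedSectionVars false

namespace Pool.Agent.Helper42.PB

open NumberField Polynomial Module IsDedekindDomain Pool.Agent.Helper51.SigLeo
open Pool.Agent.Helper51.RP Pool.Agent.Helper42.RD Pool.Agent.Helper42.PP Pool.Agent.Helper42.PP1
open Pool.Agent.Helper8.PP

theorem v_slg : V_SLG := by
  intro p hp k _ _ _ K M K₁ M₁ J M₂ _ _ _ _ _ _ _ _ _ _ _ _ _ _ _ _ _ _ _ _ _ _ _ ε δ P a₀ hB L T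
    S a ha
  have hSit := hB.sit
  have hpp : p.Prime := Fact.out
  have hp0 : p ≠ 0 := hpp.ne_zero
  have := hSit.st1
  have := hSit.st2
  have := hSit.gM
  have := hSit.gK
  have := hSit.gMK
  have := hB.t1
  have := hB.t2
  have := hB.t3
  have := hB.t4
  have := hB.gM₂
  have hKM : IsScalarTower K M M₂ := by
    refine IsScalarTower.of_algebraMap_eq fun x => ?_
    rw [IsScalarTower.algebraMap_apply K M₁ M₂, IsScalarTower.algebraMap_apply K M M₁,
      IsScalarTower.algebraMap_apply M M₁ M₂]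
  have hKK : IsScalarTower K K₁ M₂ := by
    refine IsScalarTower.of_algebraMap_eq fun x => ?_
    rw [IsScalarTower.algebraMap_apply K M₁ M₂, IsScalarTower.algebraMap_apply K K₁ M₁,
      IsScalarTower.algebraMap_apply K₁ M₁ M₂]
  have hA0 : algebraMap K₁ M₂ (a : K₁) ≠ 0 := (_root_.map_ne_zero _).2 a.ne_zero
  constructor
  · intro x hx
    refine ⟨?_, ?_, ?_⟩
    · obtain ⟨y, hy⟩ := hx.pol
      exact ⟨act δ y, by rw [pol_act, hy, map_pow]⟩
    · -- the extension of `δ`
      set g : M₂ ≃ₐ[K] M₂ := AlgEquiv.liftNormal δ M₂ with hg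
      have hgM : ∀ y : M, g (algebraMap M M₂ y) = algebraMap M M₂ (δ y) := fun y =>
        AlgEquiv.liftNormal_commutes δ M₂ y
      set σ : K₁ ≃ₐ[K] K₁ := AlgEquiv.restrictNormal g K₁ with hσ
      have hgK : ∀ y : K₁, algebraMap K₁ M₂ (σ y) = g (algebraMap K₁ M₂ y) := fun y =>
        AlgEquiv.restrictNormal_commutes g K₁ y
      obtain ⟨n, c, hn, hc⟩ := ha σ
      have hcop : n.Coprime p := by
        rw [Nat.coprime_comm, hpp.coprime_iff_not_dvd]
        rintro ⟨m, rfl⟩
        rw [pow_mul, hSit.prim.pow_eq_one, one_pow] at hn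
        have h1 : ε = 1 := by
          apply σ.injective
          rw [hn, map_one]
        have h2 := hSit.prim
        rw [h1] at h2
        exact hpp.one_lt.ne' (h2.unique IsPrimitiveRoot.one)
      have hc0 : c ≠ 0 := by
        rintro rfl
        rw [zero_pow hp0, mul_zero] at hc
        exact a.ne_zero ((map_eq_zero σ).1 hc)
      -- the element `a₀`
      obtain ⟨n', c', hn', hc'⟩ := hB.om g
      have hc'0 : c' ≠ 0 := by
        rintro rfl
        rw [zero_pow hp0, mul_zero] at hc'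
        exact a₀.ne_zero ((map_eq_zero g).1 hc')
      have hprim₂ : IsPrimitiveRoot (algebraMap K₁ M₂ ε) p :=
        hSit.prim.map_of_injective (algebraMap K₁ M₂).injective
      have hnn : (algebraMap K₁ M₂ ε) ^ n = (algebraMap K₁ M₂ ε) ^ n' := by
        rw [← hn', ← hgK, hn, map_pow]
      have hmod : n' ≡ n [MOD p] := by
        rw [Nat.modEq_iff_dvd, ← hprim₂.zpow_eq_one_iff_dvd,
          zpow_sub₀ (hprim₂.ne_zero hp0), zpow_natCast, zpow_natCast, hnn,
          div_self (pow_ne_zero _ (hprim₂.ne_zero hp0))]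
      obtain ⟨b, hb0, hb⟩ : ∃ b : M₂, b ≠ 0 ∧ g (a₀ : M₂) = (a₀ : M₂) ^ n * b ^ p := by
        rcases le_total n n' with h | h
        · obtain ⟨q, hq⟩ := (Nat.modEq_iff_dvd' h).1 hmod.symm
          refine ⟨(a₀ : M₂) ^ q * c', mul_ne_zero (pow_ne_zero _ a₀.ne_zero) hc'0, ?_⟩
          rw [hc', mul_pow, ← pow_mul, mul_comm q p, ← hq, ← mul_assoc, ← pow_add,
            Nat.add_sub_cancel' h]
        · obtain ⟨q, hq⟩ := (Nat.modEq_iff_dvd' h).1 hmod
          refine ⟨((a₀ : M₂) ^ q)⁻¹ * c', mul_ne_zero (inv_ne_zero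
            (pow_ne_zero _ a₀.ne_zero)) hc'0, ?_⟩
          have e1 : (a₀ : M₂) ^ n = (a₀ : M₂) ^ n' * ((a₀ : M₂) ^ q) ^ p := by
            rw [← pow_mul, mul_comm q p, ← hq, ← pow_add, Nat.add_sub_cancel' h]
          rw [hc', e1, mul_pow, inv_pow, mul_assoc, mul_inv_cancel_left₀
            (pow_ne_zero _ (pow_ne_zero _ a₀.ne_zero))]
      set A : M₂ := (a₀ : M₂) * algebraMap K₁ M₂ (a : K₁) with hA
      set C : M₂ := b * algebraMap K₁ M₂ c with hC
      have hA0' : A ≠ 0 := mul_ne_zero a₀.ne_zero hA0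
      have hC0 : C ≠ 0 := mul_ne_zero hb0 ((_root_.map_ne_zero _).2 hc0)
      have hgA : g A = A ^ n * C ^ p := by
        rw [hA, hC, map_mul, hb, ← hgK, hc, map_mul, map_pow, map_pow]
        ring
      intro W
      obtain ⟨W', -, hW'⟩ := Pool.Agent.Helper90.RP.exists_pull (K := K) g W
      have hloc := hx.loc W'
      have hxx : algebraMap M M₂ ((act δ x : Mˣ) : M) = g (algebraMap M M₂ (x : M)) := (hgM _).symm
      rw [hxx]
      have hordA : ordv W' A = n * ordv W A + p * ordv W C := by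
        rw [← ordv_conj g hW', hgA, ordv_mul W (pow_ne_zero _ hA0') (pow_ne_zero _ hC0), ordv_pow,
          ordv_pow]
      refine ⟨fun hd => ?_, fun hd => ?_⟩
      · rw [ordv_conj g hW']
        apply hloc.1
        rw [hordA]
        exact dvd_add (hd.mul_left _) (dvd_mul_right _ _)
      · have hd' : ¬ (p : ℤ) ∣ ordv W' A := by
          intro h
          rw [hordA] at h
          have h1 := (Int.dvd_add_left (dvd_mul_right (p : ℤ) _)).1 h
          have h2 : IsCoprime (p : ℤ) (n : ℤ) := by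
            rw [Int.isCoprime_iff_gcd_eq_one]
            exact_mod_cast (Nat.coprime_comm.1 hcop)
          exact hd (h2.dvd_of_dvd_mul_left h1)
        obtain ⟨i, hi⟩ := hloc.2 hd'
        have h3 := (locPow_conj g hW' _).2 hi
        refine ⟨n * i, ?_⟩
        rw [map_mul, map_pow, map_mul, hgA] at h3
        have e : g (algebraMap M M₂ (x : M)) * (g ((-1) ^ (p - 1)) * (A ^ n * C ^ p)) ^ i =
            g (algebraMap M M₂ (x : M)) * ((-1) ^ (p - 1) * A) ^ (n * i) * (C ^ i) ^ p := by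
          have e1 : g ((-1) ^ (p - 1)) = ((-1) ^ (p - 1) : M₂) ^ n := by
            rw [map_pow, map_neg, map_one]
            exact neg_one_pow_pow hpp hcop
          rw [e1, pow_mul, mul_pow (_ : M₂) _ n]
          ring
        rw [e] at h3
        exact (locPow_mul_pth W (pow_ne_zero _ hC0)).1 h3
    · exact Pool.Agent.Helper90.RP.loc_delta L δ hx.sig
  · intro aτ hS W hW x
    obtain ⟨y, hy⟩ := hS
    obtain ⟨v, hv, hWv⟩ := hW
    obtain ⟨Q, hQ⟩ := Pool.Agent.Helper95.RL.exists_below (M := K₁) W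
    have hQv : Above Q v := Pool.Agent.Helper96.RL.above_mid hQ hWv
    have h1 : LocPow p Q (((a / aτ : K₁ˣ) : K₁)) := ⟨(y : K₁), (hy Q ⟨v, hv, hQv⟩).1⟩
    have h2 := Pool.Agent.Helper17.RL.locPow_up p hQ _ h1
    rw [Units.val_div_eq_div_val, map_div₀] at h2
    have hB0 : algebraMap K₁ M₂ (aτ : K₁) ≠ 0 := (_root_.map_ne_zero _).2 aτ.ne_zero
    have e2 : ((a₀ : M₂) * algebraMap K₁ M₂ (a : K₁)) / ((a₀ : M₂) * algebraMap K₁ M₂ (aτ : K₁)) =
        algebraMap K₁ M₂ (a : K₁) / algebraMap K₁ M₂ (aτ : K₁) :=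
      mul_div_mul_left _ _ a₀.ne_zero
    refine ⟨locAt_of W hp0 (mul_ne_zero a₀.ne_zero hA0) (mul_ne_zero a₀.ne_zero hB0) ?_,
      locAt_of W hp0 (mul_ne_zero a₀.ne_zero hB0) (mul_ne_zero a₀.ne_zero hA0) ?_⟩
    · rw [e2]; exact h2
    · have h3 := locPow_inv W h2
      rw [← inv_div, e2]
      exact h3

end Pool.Agent.Helper42.PB
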