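import Pool.Agent.Helper42.PB.NSP
import Pool.Agent.Helper42.PB.SLG
import Pool.Agent.Helper42.PB.LAB
import Pool.Agent.Helper42.PP1.SEL
import Pool.Agent.Helper79.PP.PVIS

/-!
# Project B: V_SEL
-/

set_option autoImplicit false
set_option linter.unusedSectionVars false

namespace Pool.Agent.Helper42.PB

open NumberField Polynomial Module IsDedekindDomain Pool.Agent.Helper51.SigLeo
open Pool.Agent.Helper51.RP Pool.Agent.Helper42.RD Pool.Agent.Helper42.PP Pool.Agent.Helper42.PP1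
open Pool.Agent.Helper40.RS (bel gw bel_smul lies conj_of_bel free_gw absNorm_free val_smul)
open Pool.Agent.Helper13.RD (eq_gw ram_free eq_of_val)
open Pool.Agent.Helper40.RD (bel_of_above ordW valW)

section geom

variable {K A F : Type} [Field K] [NumberField K] [Field A] [NumberField A] [Field F]
  [NumberField F] [Algebra K A] [Algebra A F] [Algebra K F] [IsScalarTower K A F]

/-- If `N(W) = N(v)` every integer of `F` is congruent to an integer of `K` modulo `W`. -/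
theorem surj_of_norm {W : HeightOneSpectrum (𝓞 F)} {v : HeightOneSpectrum (𝓞 K)} (hWv : Above W v)
    (hN : Ideal.absNorm W.asIdeal = Ideal.absNorm v.asIdeal) (c : 𝓞 F) :
    ∃ d : 𝓞 K, c - algebraMap (𝓞 K) (𝓞 F) d ∈ W.asIdeal := by
  have hle : v.asIdeal ≤ W.asIdeal.comap (algebraMap (𝓞 K) (𝓞 F)) := (show _ = _ from hWv).ge
  set f := Ideal.quotientMap W.asIdeal (algebraMap (𝓞 K) (𝓞 F)) hle with hf
  have hinj : Function.Injective f :=
    Ideal.quotientMap_injective' (show _ ≤ _ from (show _ = _ from hWv).le)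
  have hfin : Finite (𝓞 F ⧸ W.asIdeal) := Ideal.finiteQuotientOfFreeOfNeBot _ W.ne_bot
  have hfin' : Finite (𝓞 K ⧸ v.asIdeal) := Ideal.finiteQuotientOfFreeOfNeBot _ v.ne_bot
  have hcard : Nat.card (𝓞 K ⧸ v.asIdeal) = Nat.card (𝓞 F ⧸ W.asIdeal) := by
    have h1 : Ideal.absNorm v.asIdeal = Nat.card (𝓞 K ⧸ v.asIdeal) := by
      rw [Ideal.absNorm_apply, Submodule.cardQuot_apply]
    have h2 : Ideal.absNorm W.asIdeal = Nat.card (𝓞 F ⧸ W.asIdeal) := by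
      rw [Ideal.absNorm_apply, Submodule.cardQuot_apply]
    rw [← h1, ← h2, hN]
  have hbij : Function.Bijective f :=
    (Nat.bijective_iff_injective_and_card _).2 ⟨hinj, hcard⟩
  obtain ⟨e, he⟩ := hbij.2 (Ideal.Quotient.mk W.asIdeal c)
  obtain ⟨d, rfl⟩ := Ideal.Quotient.mk_surjective e
  refine ⟨d, ?_⟩
  rw [hf, Ideal.quotientMap_mk] at he
  rw [← Ideal.Quotient.eq, he]

/-- Descent of local `p`-th powers to a field `A` with the same local degree. -/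
theorem locPow_down {p : ℕ} {W : HeightOneSpectrum (𝓞 F)} {W₁ : HeightOneSpectrum (𝓞 A)}
    {v : HeightOneSpectrum (𝓞 K)} (hWv : Above W v) (hW₁ : Above W W₁)
    (hu : ∀ x : K, ordv W (algebraMap K F x) = ordv v x)
    (hN : Ideal.absNorm W.asIdeal = Ideal.absNorm v.asIdeal) (hp0 : p ≠ 0) {x : A}
    (h : LocPow p W (algebraMap A F x)) : LocPow p W₁ x := by
  obtain ⟨y, hy⟩ := h
  have hy0 : y ≠ 0 := by
    rintro rfl
    rw [zero_pow hp0, mul_zero, zero_sub, Valuation.map_neg, map_one] at hy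
    exact lt_irrefl _ hy
  obtain ⟨π, hπ⟩ := v.valuation_exists_uniformizer K
  have hπ' : ordv v π = 1 := by unfold ordv; rw [hπ]; simp
  have hπ0 : π ≠ 0 := by
    rintro rfl
    rw [map_zero] at hπ
    exact (WithZero.coe_ne_zero hπ.symm)
  set πF : F := algebraMap K F π with hπF
  have hπF0 : πF ≠ 0 := (_root_.map_ne_zero _).2 hπ0
  set k : ℤ := ordv W y with hk
  have hz0 : y * πF ^ (-k) ≠ 0 := mul_ne_zero hy0 (zpow_ne_zero _ hπF0)
  have hz : W.valuation F (y * πF ^ (-k)) = 1 := by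
    rw [← ordv_eq_zero_iff W hz0, ordv_mul W hy0 (zpow_ne_zero _ hπF0), ordv_zpow W hπF0, hπF, hu,
      hπ']
    omega
  obtain ⟨c, hc, hc1⟩ := exists_int_close W hz
  obtain ⟨d, hd⟩ := surj_of_norm hWv hN c
  set dF : 𝓞 F := algebraMap (𝓞 K) (𝓞 F) d with hdF
  have hdn : dF ∉ W.asIdeal := by
    intro h
    apply hc
    have := W.asIdeal.add_mem hd h
    rwa [sub_add_cancel] at this
  have h1 := val_div_of_sub_mem W hdn hd
  -- `z/d ≡ 1`
  have hdF0 : ((dF : 𝓞 F) : F) ≠ 0 := by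
    intro h
    apply hdn
    have : dF = 0 := by exact_mod_cast h
    rw [this]
    exact W.asIdeal.zero_mem
  have hcF0 : ((c : 𝓞 F) : F) ≠ 0 := by
    intro h
    apply hc
    have : c = 0 := by exact_mod_cast h
    rw [this]
    exact W.asIdeal.zero_mem
  have h2 : W.valuation F (((dF : 𝓞 F) : F) / (y * πF ^ (-k)) - 1) < 1 := by
    have h3 := val_mul_sub W (val_inv_sub W h1) hc1
    have e : ((c : F) / (dF : F))⁻¹ * ((c : F) / (y * πF ^ (-k))) =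
        (dF : F) / (y * πF ^ (-k)) := by
      field_simp
    rwa [e] at h3
  refine ⟨algebraMap K A ((d : K) * π ^ k), ?_⟩
  have h3 := val_mul_sub W hy (val_pow_sub W h2 p)
  have e : algebraMap A F x * y ^ p * (((dF : 𝓞 F) : F) / (y * πF ^ (-k))) ^ p =
      algebraMap A F (x * (algebraMap K A ((d : K) * π ^ k)) ^ p) := by
    have e1 : ((dF : 𝓞 F) : F) = algebraMap K F (d : K) := rfl
    rw [map_mul, map_pow, ← IsScalarTower.algebraMap_apply K A F, map_mul, map_zpow₀, ← hπF,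
      e1, div_pow, mul_pow, mul_pow, zpow_neg, inv_pow]
    have := zpow_ne_zero k hπF0
    field_simp
  rw [e] at h3
  have h4 : algebraMap A F (x * (algebraMap K A ((d : K) * π ^ k)) ^ p) - 1 =
      algebraMap A F (x * (algebraMap K A ((d : K) * π ^ k)) ^ p - 1) := by
    rw [map_sub, map_one]
  rw [h4, valW, bel_of_above hW₁] at h3
  by_contra hcon
  have h5 := one_le_pow₀ (n := W₁.asIdeal.ramificationIdx' W.asIdeal) (not_lt.1 hcon)
  exact absurd h3 (not_lt.2 h5)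

end geom

section main

variable {p : ℕ} [hp : Fact p.Prime] {k : Type} [NormedField k] [NormedAlgebra ℚ_[p] k]
  [IsUltrametricDist k] {K M K₁ M₁ J M₂ : Type} [Field K] [NumberField K] [Field M]
  [NumberField M] [Field K₁] [NumberField K₁] [Field M₁] [NumberField M₁] [Field J]
  [NumberField J] [Field M₂] [NumberField M₂] [Algebra K M] [Algebra K K₁] [Algebra K M₁]
  [Algebra M M₁] [Algebra K₁ M₁] [Algebra K J] [Algebra K M₂] [Algebra M M₂] [Algebra K₁ M₂]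
  [Algebra M₁ M₂] [Algebra J M₂] {ε : K₁} {δ : M ≃ₐ[K] M} {P : (ZMod p)[X]} {a₀ : M₂ˣ}

theorem tow_M (hB : SitB p K M K₁ M₁ J M₂ ε δ P a₀) : IsScalarTower K M M₂ := by
  have := hB.sit.st1
  have := hB.t1
  have := hB.t2
  refine IsScalarTower.of_algebraMap_eq fun x => ?_
  rw [IsScalarTower.algebraMap_apply K M₁ M₂, IsScalarTower.algebraMap_apply K M M₁,
    IsScalarTower.algebraMap_apply M M₁ M₂]

theorem tow_K (hB : SitB p K M K₁ M₁ J M₂ ε δ P a₀) : IsScalarTower K K₁ M₂ := by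
  have := hB.sit.st2
  have := hB.t1
  have := hB.t3
  refine IsScalarTower.of_algebraMap_eq fun x => ?_
  rw [IsScalarTower.algebraMap_apply K M₁ M₂, IsScalarTower.algebraMap_apply K K₁ M₁,
    IsScalarTower.algebraMap_apply K₁ M₁ M₂]

/-- The primes split in `M₂` are visible. -/
theorem spl_vis (hB : SitB p K M K₁ M₁ J M₂ ε δ P a₀) (B : Base p K M K₁ M₁ ε δ P)
    {v : HeightOneSpectrum (𝓞 K)} (hv : v ∈ Spl M₂ B.S) : v ∈ B.Vis := by
  have := hB.t1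
  have := hB.gM₂
  have := hB.sit.gMK
  obtain ⟨hvS, W', hW', hf⟩ := hv
  have h1 : Above W' (bel M₁ W') := rfl
  exact ⟨hvS, bel M₁ W', bel_of hW' h1, free_below h1 hf⟩

/-- The condition at a visible ramified prime, for one element. -/
theorem tame_eqB (hB : SitB p K M K₁ M₁ J M₂ ε δ P a₀) (B : Base p K M K₁ M₁ ε δ P)
    (D : BaseB B a₀) {v : HeightOneSpectrum (𝓞 K)} (hv : v ∈ Spl M₂ B.S) (a : K₁ˣ)
    (ha : ordp p (B.Q v) a ≠ 0) (y : Mˣ)
    (hy : LocAt p (D.W₂ v) ((a₀ : M₂) * algebraMap K₁ M₂ (a : K₁)) (algebraMap M M₂ (y : M))) :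
    ordp p (B.Q v) a * B.th v (inc M M₁ y) =
      ordp p (B.w v) y * (B.th v (ast p K₁ M₁ a) + D.s0 v) := by
  have hp0 : p ≠ 0 := (Fact.out : p.Prime).ne_zero
  have := hB.t1
  have := hB.t2
  have := hB.t3
  have := hB.gM₂
  have := hB.sit.gMK
  have hvis := spl_vis hB B hv
  obtain ⟨hA1, hA2, hA3⟩ := D.W₂a v hv
  obtain ⟨h1, h2⟩ := (w_nzy p K M K₁ M₁ ε δ P hB.sit B).2.2.2 v hvis
  have hu := D.unr v hv.1 (D.W₂ v) hA1
  have hu1 : ∀ x : M₁, ordv (D.W₂ v) (algebraMap M₁ M₂ x) = ordv (B.W v) x :=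
    ord_of_unr hA1 hA2 hu
  have hN : Ideal.absNorm (D.W₂ v).asIdeal = Ideal.absNorm v.asIdeal := by
    rw [absNorm_free (K := K) _ hA3, bel_of_above hA1]
  have hup : D.W₂ v ∉ up M₂ B.S := notMem_up hv.1 hA1
  have ha₀ := D.a₀S _ hup
  have hA0 : algebraMap K₁ M₂ (a : K₁) ≠ 0 := (_root_.map_ne_zero _).2 a.ne_zero
  have hoa : ordv (D.W₂ v) (algebraMap K₁ M₂ (a : K₁)) = ordv (B.Q v) (a : K₁) := by
    rw [IsScalarTower.algebraMap_apply K₁ M₁ M₂, hu1, h2]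
  have hn : ¬ (p : ℤ) ∣ ordv (D.W₂ v) ((a₀ : M₂) * algebraMap K₁ M₂ (a : K₁)) := by
    rw [ordv_mul _ a₀.ne_zero hA0, hoa]
    intro h
    exact ha (ordp_zero_iff.2 ((dvd_add_right ha₀).1 h))
  obtain ⟨i, hi⟩ := hy.2 hn
  obtain ⟨x₀, hx0, hx1, hx2⟩ := D.s0P v hv
  -- replace `a₀` by `x₀`
  have hx₀0 : algebraMap K M₂ (x₀ : K) ≠ 0 := (_root_.map_ne_zero _).2 x₀.ne_zero
  have h3 := locPow_mul _ hi (locPow_inv _ (locPow_pow _ hx2 i))
  have e1 : algebraMap M M₂ (y : M) *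
      ((-1) ^ (p - 1) * ((a₀ : M₂) * algebraMap K₁ M₂ (a : K₁))) ^ i *
      (((a₀ : M₂) * (algebraMap K M₂ (x₀ : K))⁻¹) ^ i)⁻¹ =
      algebraMap M₁ M₂ ((inc M M₁ y * (ast p K₁ M₁ a * inc K M₁ x₀) ^ i : M₁ˣ) : M₁) := by
    have e2 : ((inc M M₁ y * (ast p K₁ M₁ a * inc K M₁ x₀) ^ i : M₁ˣ) : M₁) =
        algebraMap M M₁ (y : M) * ((-1) ^ (p - 1) * algebraMap K₁ M₁ (a : K₁) *
          algebraMap K M₁ (x₀ : K)) ^ i := by
      simp [ast, inc]
    rw [e2, map_mul, map_pow, map_mul, map_mul, map_pow, map_neg, map_one,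
      ← IsScalarTower.algebraMap_apply M M₁ M₂, ← IsScalarTower.algebraMap_apply K₁ M₁ M₂,
      ← IsScalarTower.algebraMap_apply K M₁ M₂, mul_assoc, ← inv_pow, ← mul_pow]
    congr 2
    have := a₀.ne_zero
    field_simp
  rw [e1] at h3
  have h4 : LocPow p (B.W v) ((inc M M₁ y * (ast p K₁ M₁ a * inc K M₁ x₀) ^ i : M₁ˣ) : M₁) :=
    locPow_down hA1 hA2 hu hN hp0 h3
  have hth := B.thh v hvis
  have h5 : B.th v (inc M M₁ y * (ast p K₁ M₁ a * inc K M₁ x₀) ^ i) = 0 := by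
    rw [B.thk v hvis]
    exact ⟨0, by rw [pow_zero, mul_one]; exact h4⟩
  rw [hth, hom_pow hth, hth, hx1] at h5
  have h6 := ord_of_locPow hp0 h4
  have h7 : ordp p (B.W v) (inc M M₁ y * (ast p K₁ M₁ a * inc K M₁ x₀) ^ i) = 0 :=
    ordp_zero_iff.2 h6
  rw [ordp_hom p (B.W v), hom_pow (ordp_hom p (B.W v)), ordp_hom p (B.W v)] at h7
  have h8 : ordp p (B.W v) (inc M M₁ y) = ordp p (B.w v) y := by
    show ((ordv (B.W v) (algebraMap M M₁ (y : M)) : ℤ) : ZMod p) = _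
    rw [h1]; rfl
  have h9 : ordp p (B.W v) (ast p K₁ M₁ a) = ordp p (B.Q v) a := by
    have h8 : ordv (B.W v) ((ast p K₁ M₁ a : M₁ˣ) : M₁) = ordv (B.Q v) (a : K₁) := by
      rw [← h2]
      have e2 : ((ast p K₁ M₁ a : M₁ˣ) : M₁) = (-1) ^ (p - 1) * algebraMap K₁ M₁ (a : K₁) := by
        simp [ast, inc]
      rw [e2]
      exact ordv_sg (B.W v) (p - 1) _
    show ((ordv (B.W v) ((ast p K₁ M₁ a : M₁ˣ) : M₁) : ℤ) : ZMod p) = _
    rw [h8]; rfl
  have h10 : ordp p (B.W v) (inc K M₁ x₀) = 0 := by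
    show ((ordv (B.W v) (algebraMap K M₁ (x₀ : K)) : ℤ) : ZMod p) = 0
    have h11 : ordv (B.W v) (algebraMap K M₁ (x₀ : K)) = ordv v (x₀ : K) := by
      rw [← hu1, ← IsScalarTower.algebraMap_apply K M₁ M₂, hu]
    rw [h11, hx0, Int.cast_zero]
  rw [h8, h9, h10, add_zero] at h7
  have h11 : B.th v (inc M M₁ y) = -(i • (B.th v (ast p K₁ M₁ a) + D.s0 v)) :=
    eq_neg_of_add_eq_zero_left h5
  have h12 : ordp p (B.w v) y = -(i • ordp p (B.Q v) a) := eq_neg_of_add_eq_zero_left h7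
  rw [h11, h12]
  simp only [nsmul_eq_mul]
  ring

/-- The support of the Selmer element. -/
theorem sel_suppB [Fact (Irreducible P)] (hB : SitB p K M K₁ M₁ J M₂ ε δ P a₀)
    (L : IwasawaLog p k) (T : Set (K →+* k)) (B : Base p K M K₁ M₁ ε δ P) (D : BaseB B a₀)
    (aτ : K₁ˣ) (haτ : OmType p K ε (aτ : K₁)) (a : K₁ˣ) (ha : OmType p K ε (a : K₁)) (x : Mˣ)
    (hx : Sel L (above T) P δ ((a₀ : M₂) * algebraMap K₁ M₂ (a : K₁)) x)
    (w : HeightOneSpectrum (𝓞 M)) (hw : w ∉ up M B.S) (hn : ¬ (p : ℤ) ∣ ordv w (x : M)) :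
    ∃ v ∈ Spl M₂ B.S, Above w v ∧ ordp p (B.Q v) a ≠ 0 := by
  have hs := hB.sit
  have := hs.st1
  have := hs.st2
  have := hs.gM
  have := hs.gK
  have := hs.gMK
  have := hB.t1
  have := hB.t2
  have := hB.t3
  have := hB.gM₂
  have := tow_M hB
  have := tow_K hB
  have hcopK : (finrank K K₁).Coprime p := by
    have h1 := Pool.Agent.Helper14.RD.finrank_dvd_pred p K K₁ ε hs.prim hs.gen
    exact Nat.Coprime.coprime_dvd_left h1 ((Nat.coprime_self_sub_left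
      (Fact.out : p.Prime).one_le).2 (Nat.coprime_one_left p))
  have hfree : FreeP K w := by
    by_contra hf
    exact hn (hs.nsp w hf x hx.pol)
  obtain ⟨W', hW'⟩ := exists_bel (M₁ := M₂) w
  have hWw : Above W' w := by rw [← hW']; rfl
  obtain ⟨v, hv⟩ : ∃ v, v = bel K w := ⟨_, rfl⟩
  have hvS : v ∉ B.S := by rw [hv]; exact bel_notMem hw
  have hwv : Above w v := by rw [hv]; rfl
  have hWv : Above W' v := by
    have h1 := bel_bel (K := K) (M := M) W'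
    rw [hW', ← hv] at h1
    rw [h1]; rfl
  obtain ⟨Q, hQ⟩ : ∃ Q, Q = bel K₁ W' := ⟨_, rfl⟩
  have hWQ : Above W' Q := by rw [hQ]; rfl
  have hQv : Above Q v := bel_of hWv hWQ
  obtain ⟨W, hW⟩ : ∃ W, W = bel M₁ W' := ⟨_, rfl⟩
  have hW'W : Above W' W := by rw [hW]; rfl
  have hWv₁ : Above W v := bel_of hWv hW'W
  have hu := D.unr v hvS W' hWv
  have huM := ord_of_unr hWv hWw hu
  have huK := ord_of_unr hWv hWQ hu
  have huW := ord_of_unr hWv hW'W hu
  have hn' : ¬ (p : ℤ) ∣ ordv W' (algebraMap M M₂ (x : M)) := by rw [huM]; exact hn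
  have hA0 : algebraMap K₁ M₂ (a : K₁) ≠ 0 := (_root_.map_ne_zero _).2 a.ne_zero
  have hup : W' ∉ up M₂ B.S := notMem_up hvS hWv
  have hnα : ¬ (p : ℤ) ∣ ordv W' ((a₀ : M₂) * algebraMap K₁ M₂ (a : K₁)) :=
    fun h => hn' ((hx.loc W').1 h)
  have hna : ¬ (p : ℤ) ∣ ordv W' (algebraMap K₁ M₂ (a : K₁)) := by
    intro h
    apply hnα
    rw [ordv_mul _ a₀.ne_zero hA0]
    exact dvd_add (D.a₀S _ hup) h
  have hnQ : ¬ (p : ℤ) ∣ ordv Q (a : K₁) := by
    rw [← huK]; exact hna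
  have hQf : FreeP K Q := by
    by_contra hf
    exact hnQ ((Pool.Agent.Helper22.PP.p_omg p K K₁ ε hs.prim hs.gen hcopK).2.2.2.1 a ha Q hf)
  have hcalP : v ∈ B.calP := ⟨hvS, Q, hQv, hQf⟩
  have hWf : FreeP K W := (hs.vis v (val_p_one B hvS)).2.1 w Q W hwv hQv hWv₁ hfree hQf
  have hpW' : W'.valuation M₂ (p : M₂) = 1 := by
    have h1 : algebraMap K M₂ (p : K) = (p : M₂) := map_natCast _ _
    rw [← h1, valW, bel_of_above hWv, val_p_one B hvS, one_pow]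
  have hWf' : FreeP K W' := by
    intro g hg
    by_contra hg1
    have hgW : AlgEquiv.restrictNormal g M₁ = 1 := by
      apply hWf
      intro y
      have h1 := AlgEquiv.restrictNormal_commutes g M₁ y
      have h2 : ∀ z : M₁, W'.valuation M₂ (algebraMap M₁ M₂ z) =
          W.valuation M₁ z ^ W.asIdeal.ramificationIdx' W'.asIdeal := by
        intro z
        rw [valW, bel_of_above hW'W]
      have h3 : W.valuation M₁ (AlgEquiv.restrictNormal g M₁ y) ^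
          W.asIdeal.ramificationIdx' W'.asIdeal =
          W.valuation M₁ y ^ W.asIdeal.ramificationIdx' W'.asIdeal := by
        rw [← h2, ← h2, h1, hg]
      have h4 : W.asIdeal.ramificationIdx' W'.asIdeal ≠ 0 := by
        have h5 := Pool.Agent.Helper79.PP.ram_ne (A := M₁) W'
        rwa [bel_of_above hW'W] at h5
      exact (pow_left_inj₀ zero_le zero_le h4).1 h3
    have hfix : ∀ y : M₁, g (algebraMap M₁ M₂ y) = algebraMap M₁ M₂ y := by
      intro y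
      rw [← AlgEquiv.restrictNormal_commutes g M₁ y, hgW]
      rfl
    exact hn' (v_nsp p K M K₁ M₁ J M₂ ε δ P a₀ hB W' hpW' g hfix hg1 hg a x
      ((hx.loc W').2 hnα))
  refine ⟨v, ⟨hvS, W', hWv, hWf'⟩, hwv, ?_⟩
  intro h0
  have h1 := ((((v_lab p k L K M K₁ M₁ ε δ P hs B aτ 0
    (ofTauN (tau0 B L T aτ)) ∅ 0 haτ).1 a ha).2.1 v hcalP W hWv₁).2 h0)
  apply hna
  rw [IsScalarTower.algebraMap_apply K₁ M₁ M₂, huW]
  exact h1

theorem sel_actB (hB : SitB p K M K₁ M₁ J M₂ ε δ P a₀) (L : IwasawaLog p k)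
    (T : Set (K →+* k)) (a : K₁ˣ) (ha : OmType p K ε (a : K₁)) (x : Mˣ)
    (hx : Sel L (above T) P δ ((a₀ : M₂) * algebraMap K₁ M₂ (a : K₁)) x) (i : ℕ) :
    Sel L (above T) P δ ((a₀ : M₂) * algebraMap K₁ M₂ (a : K₁)) (act (δ ^ i) x) := by
  induction i with
  | zero =>
    have h1 : act (δ ^ 0) x = x := by
      rw [pow_zero]; exact Units.ext rfl
    rw [h1]; exact hx
  | succ i ih =>
    have h1 : act (δ ^ (i + 1)) x = act δ (act (δ ^ i) x) := by
      rw [pow_succ']; exact Units.ext rfl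
    rw [h1]
    exact (v_slg p k K M K₁ M₁ J M₂ ε δ P a₀ hB L T ∅ a ha).1 _ ih

/-- The condition at a visible ramified prime. -/
theorem sel_locB (hB : SitB p K M K₁ M₁ J M₂ ε δ P a₀) (L : IwasawaLog p k)
    (T : Set (K →+* k)) (B : Base p K M K₁ M₁ ε δ P) (D : BaseB B a₀) (a : K₁ˣ)
    (ha : OmType p K ε (a : K₁)) (x : Mˣ)
    (hx : Sel L (above T) P δ ((a₀ : M₂) * algebraMap K₁ M₂ (a : K₁)) x)
    {v : HeightOneSpectrum (𝓞 K)} (hv : v ∈ Spl M₂ B.S) (he : ordp p (B.Q v) a ≠ 0) :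
    algebraMap (ZMod p) (AdjoinRoot P) (ordp p (B.Q v) a) * B.R v x =
      B.nv v x * algebraMap (ZMod p) (AdjoinRoot P) (B.th v (ast p K₁ M₁ a) + D.s0 v) := by
  unfold Base.R Base.nv kf
  rw [Finset.mul_sum, Finset.sum_mul]
  refine Finset.sum_congr rfl fun i _ => ?_
  have h1 := tame_eqB hB B D hv a he (act (δ ^ i) x)
    ((sel_actB hB L T a ha x hx i).loc (D.W₂ v))
  rw [← mul_assoc, ← map_mul, h1, map_mul]
  ring

theorem sysB_lam0 [Fact (Irreducible P)] (B : Base p K M K₁ M₁ ε δ P) {n : ℕ} (E : TauF n B)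
    (V : Set (HeightOneSpectrum (𝓞 K))) (s0 : HeightOneSpectrum (𝓞 K) → ZMod p) (aτ : K₁ˣ)
    (t : Fin B.r → AdjoinRoot P) (j : Fin n) :
    (sysB B E V s0 aτ).lam₀ t j = ∑ i, t i * E.h j (B.u i) := by
  show (LinearMap.pi (R := AdjoinRoot P) (fun j ↦
    ∑ i, (LinearMap.proj i).smulRight (E.h j (B.u i))) t j : AdjoinRoot P) = _
  rw [LinearMap.pi_apply, LinearMap.sum_apply]
  rfl

theorem sysB_lam [Fact (Irreducible P)] (B : Base p K M K₁ M₁ ε δ P) {n : ℕ} (E : TauF n B)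
    (V : Set (HeightOneSpectrum (𝓞 K))) (s0 : HeightOneSpectrum (𝓞 K) → ZMod p) (aτ : K₁ˣ)
    (q : B.LP) (c : AdjoinRoot P) (j : Fin n) :
    (sysB B E V s0 aτ).lam q c j = c * B.til (E.h j) (nrm M M₁ (B.z q.1.1)) := rfl

theorem sysB_res [Fact (Irreducible P)] (B : Base p K M K₁ M₁ ε δ P) {n : ℕ} (E : TauF n B)
    (V : Set (HeightOneSpectrum (𝓞 K))) (s0 : HeightOneSpectrum (𝓞 K) → ZMod p) (aτ : K₁ˣ)
    (q : B.LP) (t : Fin B.r → AdjoinRoot P) :
    (sysB B E V s0 aτ).res q t = ∑ i, t i * B.R q.1.1 (B.u i) := by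
  show ((∑ i, (LinearMap.proj i).smulRight (B.R q.1.1 (B.u i)) :
    (Fin B.r → AdjoinRoot P) →ₗ[AdjoinRoot P] AdjoinRoot P) t : AdjoinRoot P) = _
  rw [LinearMap.sum_apply]
  rfl

open Classical in
/-- The solution attached to `x`. -/
noncomputable def ccB (B : Base p K M K₁ M₁ ε δ P) (V : Set (HeightOneSpectrum (𝓞 K))) (a : K₁ˣ)
    (x : Mˣ) (q : B.LP) : AdjoinRoot P := if q ∈ B.lab a ∧ q.1.1 ∈ V then B.nv q.1.1 x else 0

open Classical in
theorem sum_ccB (B : Base p K M K₁ M₁ ε δ P) (V : Set (HeightOneSpectrum (𝓞 K))) {a : K₁ˣ}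
    (hfin : (B.labs a).Finite) (x : Mˣ) (f : HeightOneSpectrum (𝓞 K) → AdjoinRoot P) :
    ∑ q ∈ B.lab a, ccB B V a x q * f q.1.1 =
      ∑ v ∈ (zz B a).filter (fun v ↦ v ∈ V), B.nv v x * f v := by
  rw [Finset.sum_filter, ← sum_lab B hfin]
  refine Finset.sum_congr rfl fun q hq => ?_
  unfold ccB
  by_cases h : q.1.1 ∈ V
  · rw [if_pos ⟨hq, h⟩, if_pos h]
  · rw [if_neg (fun h' => h h'.2), if_neg h, zero_mul]

end main

theorem v_sel : V_SEL := by
  classical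
  intro p _ k _ _ _ K M K₁ M₁ J M₂ _ _ _ _ _ _ _ _ _ _ _ _ _ _ _ _ _ _ _ _ _ _ _ ε δ P _ a₀ hB
    L T B D aτ n E haτ a ha hloc
  have hs := hB.sit
  rintro ⟨x, hx, hnx⟩
  obtain ⟨hfin, -, -, -⟩ := (v_lab p k L K M K₁ M₁ ε δ P hs B aτ n E.toTauF (Spl M₂ B.S) D.s0
    haτ).1 a ha
  -- the decomposition of `x`
  obtain ⟨d1, d2⟩ := w_dec p K M K₁ M₁ ε δ P hs B x hx.pol
    ((zz B a).filter (fun v ↦ v ∈ Spl M₂ B.S))
    (fun v hv => spl_vis hB B (Finset.mem_filter.1 hv).2) (by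
      intro w hw h
      by_contra hn
      obtain ⟨v, hv, hwv, he⟩ := sel_suppB hB L T B D aτ haτ a ha x hx w hw hn
      refine h v (Finset.mem_filter.2 ⟨(mem_zz B hfin v).2 ⟨?_, he⟩, hv⟩) hwv
      obtain ⟨hvS, W, hW, hWf⟩ := spl_vis hB B hv
      have := hs.st1
      have := hs.st2
      have := hs.gM
      have := hs.gK
      have := hs.gMK
      obtain ⟨Q, hQ⟩ : ∃ Q, Q = bel K₁ W := ⟨_, rfl⟩
      have hWQ : Above W Q := by rw [hQ]; rfl
      have h1 := ((hs.vis v (val_p_one B hvS)).1 W hW hWf).2.2 Q hWQ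
      exact ⟨hvS, Q, h1.2.2, h1.1⟩)
  refine ⟨fun i => B.rho i x, ccB B (Spl M₂ B.S) a x, ⟨?_, ?_, ?_⟩, ?_⟩
  · -- supp
    intro q hq
    by_contra h
    exact hq (if_neg h)
  · -- lam
    funext j
    have h1 : E.h j x = 0 := E.hS j x hx.pol
      (fun W hW => ((v_slg p k K M K₁ M₁ J M₂ ε δ P a₀ hB L T B.S a ha).2 aτ hloc W hW _).1
        (hx.loc W)) hx.sig
    have h2 := d1 (E.h j) (E.hP j)
    rw [h1] at h2
    have h3 := sum_ccB B (Spl M₂ B.S) hfin x (fun v => B.til (E.h j) (nrm M M₁ (B.z v)))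
    show ((sysB B E.toTauF (Spl M₂ B.S) D.s0 aτ).lam₀ (fun i => B.rho i x) +
      ∑ q ∈ B.lab a, (sysB B E.toTauF (Spl M₂ B.S) D.s0 aτ).lam q
        (ccB B (Spl M₂ B.S) a x q)) j = 0
    rw [Pi.add_apply, Finset.sum_apply, sysB_lam0]
    simp only [sysB_lam]
    rw [h3]
    exact h2.symm
  · -- loc
    intro q hq hsp
    have hv : q.1.1 ∈ Spl M₂ B.S := hsp
    have hvis := spl_vis hB B hv
    have he : ordp p (B.Q q.1.1) a = (q.1.2 : ZMod p) := (mem_lab B hfin q).1 hq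
    have he0 : (q.1.2 : ZMod p) ≠ 0 := Units.ne_zero _
    have h1 := sel_locB hB L T B D a ha x hx hv (by rw [he]; exact he0)
    rw [th_ast w_dew hs B a aτ ha hfin hloc hvis, he,
      ← sum_e B hfin (fun l => B.pi q.1.1 l)] at h1
    have hth := B.thh q.1.1 hvis
    have h2 := d1 (B.R q.1.1) ((Pool.Agent.Helper30.PP.p_fun p K M (finrank K M) δ P finrank_pos
      hs.copm (by rw [← hs.ord]; exact pow_orderOf_eq_one δ) hs.irr hs.dvdP).2 _
      (fun y z => by rw [map_mul, hth])).1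
    have h3 := sum_ccB B (Spl M₂ B.S) hfin x (fun v => B.A q.1.1 v)
    have h4 : ccB B (Spl M₂ B.S) a x q = B.nv q.1.1 x := if_pos ⟨hq, hv⟩
    have h5 : (sysB B E.toTauF (Spl M₂ B.S) D.s0 aτ).R (B.lab a) (fun i => B.rho i x)
        (ccB B (Spl M₂ B.S) a x) q =
        B.R q.1.1 x - B.nv q.1.1 x * algebraMap (ZMod p) (AdjoinRoot P) ((q.1.2 : ZMod p)⁻¹ *
          (B.sv aτ q.1.1 + D.s0 q.1.1 +
            ∑ q' ∈ B.lab a, (q'.1.2 : ZMod p) * B.pi q.1.1 q'.1.1)) := by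
      unfold Pool.Agent.Helper17.PP.Sys.R
      rw [sysB_res, sum_er (B.lab a) hq, sum_er (B.lab a) hq]
      show _ + (∑ q' ∈ B.lab a, ccB B (Spl M₂ B.S) a x q' * B.A q.1.1 q'.1.1 -
          ccB B (Spl M₂ B.S) a x q * B.A q.1.1 q.1.1) +
        ccB B (Spl M₂ B.S) a x q * ((B.A q.1.1 q.1.1 - algebraMap (ZMod p) (AdjoinRoot P)
          ((q.1.2 : ZMod p)⁻¹ * (B.sv aτ q.1.1 + D.s0 q.1.1) + B.pi q.1.1 q.1.1)) +
          (∑ q' ∈ B.lab a, algebraMap (ZMod p) (AdjoinRoot P)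
            (- ((q'.1.2 : ZMod p) * (q.1.2 : ZMod p)⁻¹ * B.pi q.1.1 q'.1.1)) -
            algebraMap (ZMod p) (AdjoinRoot P)
            (- ((q.1.2 : ZMod p) * (q.1.2 : ZMod p)⁻¹ * B.pi q.1.1 q.1.1)))) = _
      rw [h3, h2, h4, ← map_sum, mul_inv_cancel₀ he0]
      have h6 : ∑ q' ∈ B.lab a,
          (- ((q'.1.2 : ZMod p) * (q.1.2 : ZMod p)⁻¹ * B.pi q.1.1 q'.1.1)) =
          - ((q.1.2 : ZMod p)⁻¹ * ∑ q' ∈ B.lab a, (q'.1.2 : ZMod p) * B.pi q.1.1 q'.1.1) := by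
        rw [Finset.mul_sum, ← Finset.sum_neg_distrib]
        exact Finset.sum_congr rfl fun q' _ => by ring
      rw [h6]
      simp only [map_mul, map_add, map_neg, map_one, Base.A]
      ring
    rw [h5]
    have h7 : algebraMap (ZMod p) (AdjoinRoot P) (q.1.2 : ZMod p) *
        algebraMap (ZMod p) (AdjoinRoot P) ((q.1.2 : ZMod p)⁻¹) = 1 := by
      rw [← map_mul, mul_inv_cancel₀ he0, map_one]
    rw [map_mul]
    rw [show B.sv aτ q.1.1 + ∑ q' ∈ B.lab a, (q'.1.2 : ZMod p) * B.pi q.1.1 q'.1.1 + D.s0 q.1.1 =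
      B.sv aτ q.1.1 + D.s0 q.1.1 + ∑ q' ∈ B.lab a, (q'.1.2 : ZMod p) * B.pi q.1.1 q'.1.1 by ring]
      at h1
    linear_combination (algebraMap (ZMod p) (AdjoinRoot P) ((q.1.2 : ZMod p)⁻¹)) * h1 -
      (B.R q.1.1 x) * h7
  · -- nonzero
    rintro ⟨h1, h2⟩
    refine hnx (d2 (fun i => congrFun h1 i) ?_)
    intro v hv
    obtain ⟨hv1, hv2⟩ := Finset.mem_filter.1 hv
    unfold zz at hv1
    obtain ⟨q, hq, rfl⟩ := Finset.mem_image.1 hv1
    have h3 := congrFun h2 q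
    unfold ccB at h3
    rw [if_pos ⟨hq, hv2⟩] at h3
    exact h3

end Pool.Agent.Helper42.PB
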