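import Pool.Agent.Helper27.PB.Goals
import Pool.Agent.Helper99.ZZ.Main

/-! Packet PB-KK: instantiation of the inputs K1, K3. -/

open scoped ENNReal
open Finset

namespace Pool.Agent.Helper42.PB

open Pool.Agent.Helper92.Eps hiding Bas
open Pool.Agent.Helper99.ZZ
open Pool.Agent.Helper98.Saw (Blk)
open Pool.Agent.Helper92.Poly (gsh)
open Pool.Agent.Helper23.KP (AP RegS)
open Pool.Agent.Helper96.KP (Good DG DG')
open Pool.Agent.Helper27.PB

theorem KK : KK_stmt := by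
  intro β hβ
  have hk3 : Pool.Agent.Helper98.K3.K3W_stmt :=
    Helper98.K3.k3 Helper22.FP.Slo.klat Helper22.FP.Slo.kslo Helper22.FP.Slo.farr
      Helper47.FAR.MIRR
  have hk1 : Pool.Agent.Helper98.K3.K1W_stmt := Helper98.K3.k1
  obtain ⟨C3, Q, θ, n0, hC3, hQ, -, hθ, h3⟩ := hk3 β hβ
  obtain ⟨C1, hC1, h1⟩ := hk1 β 1 hβ one_pos
  refine ⟨max C3 C1, Q, θ, fun Jm => ∑ J ∈ range (Jm + 1), n0 J,
    (max_lt (lt_top_iff_ne_top.2 hC3) (lt_top_iff_ne_top.2 hC1)).ne, hQ, hθ,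
    fun n Jm A hA hreg hn => ⟨⟨hA.one.cal, hA.one.ren, hA.one.anti, fun ρ t => ?_⟩,
      ⟨Helper49.ZZ.EVT A _ _ _ hA.one.cal, fun ρ hρ => ?_, fun J hJ => ?_⟩⟩⟩
  · have h := hreg (ρ + t) t (Nat.le_add_left t ρ)
    rw [Nat.add_sub_cancel] at h
    calc ENNReal.ofReal ((2 : ℝ) ^ β) ^ t * A.S (2 ^ ρ)
        ≤ ENNReal.ofReal ((2 : ℝ) ^ β) ^ t *
          (ENNReal.ofReal ((2 : ℝ) ^ (-(β * (t : ℝ)))) * A.S (2 ^ (ρ + t))) := by gcongr
      _ = A.S (2 ^ (ρ + t)) := by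
          rw [← mul_assoc, ← ENNReal.ofReal_pow (by positivity),
            ← ENNReal.ofReal_mul (by positivity), ← Real.rpow_mul_natCast (by norm_num),
            ← Real.rpow_add (by norm_num), add_neg_cancel, Real.rpow_zero, ENNReal.ofReal_one,
            one_mul]
  · have h := h1 n ρ A hA (hreg ρ) ρ le_rfl
    rw [Nat.sub_self, pow_zero, mul_one] at h
    rw [one_pow, mul_one]
    exact h.trans (le_max_right _ _)
  · refine (h3 n J A hA (hreg J) (le_trans ?_ hn)).mono (le_max_left _ _) le_rfl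
    exact Finset.single_le_sum (f := fun J => n0 J) (fun _ _ => Nat.zero_le _)
      (Finset.mem_range.2 (Nat.lt_succ_of_le hJ))

end Pool.Agent.Helper42.PB
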