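import Pool.Agent.Helper42.PB.Goals
import Pool.Agent.Helper42.PP1.SLG
import Pool.Agent.Helper42.RD.VAL

/-!
# Project B: V_NSP, the primes which are not visible
-/

set_option autoImplicit false
set_option linter.unusedSectionVars false

namespace Pool.Agent.Helper42.PB

open NumberField Polynomial Module IsDedekindDomain Pool.Agent.Helper51.SigLeo
open Pool.Agent.Helper51.RP Pool.Agent.Helper42.RD Pool.Agent.Helper42.PP Pool.Agent.Helper42.PP1

section local_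

variable {p : ℕ} [hp : Fact p.Prime] {F : Type} [Field F] [NumberField F]
  (W : HeightOneSpectrum (𝓞 F))

/-- If `z^p ≡ 1` then `z` is congruent to a root of unity. -/
theorem root_close {ε : F} (hε : IsPrimitiveRoot ε p) {z : F}
    (hz : W.valuation F (z ^ p - 1) < 1) : ∃ i : ℕ, W.valuation F (z * (ε ^ i)⁻¹ - 1) < 1 := by
  have hp0 : p ≠ 0 := hp.out.ne_zero
  have hε1 : W.valuation F ε = 1 := by
    have h1 : W.valuation F (ε ^ p) = 1 := by rw [hε.pow_eq_one, map_one]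
    rw [map_pow] at h1
    exact (pow_eq_one_iff_of_nonneg zero_le hp0).1 h1
  have h1 := hε.pow_sub_pow_eq_prod_sub_mul z 1 hp.out.pos
  rw [one_pow] at h1
  rw [h1, map_prod] at hz
  by_contra hcon
  push Not at hcon
  have h2 : ∀ ζ ∈ nthRootsFinset p (1 : F), 1 ≤ W.valuation F (z - ζ * 1) := by
    intro ζ hζ
    rw [mem_nthRootsFinset hp.out.pos] at hζ
    obtain ⟨i, -, hi⟩ := hε.eq_pow_of_pow_eq_one hζ
    have h3 := hcon i
    have h4 : W.valuation F (ε ^ i) = 1 := by rw [map_pow, hε1, one_pow]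
    have h5 : ε ^ i ≠ 0 := pow_ne_zero _ (hε.ne_zero hp0)
    have h6 : z * (ε ^ i)⁻¹ - 1 = (z - ζ * 1) * (ε ^ i)⁻¹ := by
      rw [mul_one, ← hi, sub_mul, mul_inv_cancel₀ h5]
    rw [h6, map_mul, map_inv₀, h4, inv_one, mul_one] at h3
    exact h3
  exact absurd hz (not_lt.2 (Finset.one_le_prod' h2))

theorem one_of_close {ζ : F} (hζ : ζ ^ p = 1) (h : W.valuation F (ζ - 1) < 1)
    (hW : W.valuation F (p : F) = 1) : ζ = 1 := by
  by_contra hne
  have h1 : ∑ i ∈ Finset.range p, ζ ^ i = 0 := by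
    have h2 := geom_sum_mul ζ p
    rw [hζ, sub_self] at h2
    exact (mul_eq_zero.1 h2).resolve_right (sub_ne_zero.2 hne)
  have h2 : ∑ i ∈ Finset.range p, (ζ ^ i - 1) = -(p : F) := by
    rw [Finset.sum_sub_distrib, h1]
    simp
  have h3 : W.valuation F (∑ i ∈ Finset.range p, (ζ ^ i - 1)) < 1 :=
    Valuation.map_sum_lt _ one_ne_zero fun i _ => val_pow_sub W h i
  rw [h2, Valuation.map_neg, hW] at h3
  exact lt_irrefl _ h3

end local_

theorem prod_tele {K F : Type} [Field K] [Field F] [Algebra K F] (σ : F ≃ₐ[K] F) {y : F}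
    (hy : y ≠ 0) (n : ℕ) :
    ∏ s ∈ Finset.range n, (σ ^ s) (σ y / y) = (σ ^ n) y / y := by
  induction n with
  | zero =>
    rw [Finset.range_zero, Finset.prod_empty, pow_zero]
    show 1 = y / y
    rw [div_self hy]
  | succ n ih =>
    rw [Finset.prod_range_succ, ih, map_div₀]
    have h1 : (σ ^ n) (σ y) = (σ ^ (n + 1)) y := by rw [pow_succ]; rfl
    have h2 : (σ ^ n) y ≠ 0 := (map_ne_zero_iff _ (σ ^ n).injective).2 hy
    rw [h1]
    field_simp

section main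

variable {p : ℕ} [hp : Fact p.Prime] {K M K₁ M₁ J M₂ : Type} [Field K] [NumberField K] [Field M]
  [NumberField M] [Field K₁] [NumberField K₁] [Field M₁] [NumberField M₁] [Field J]
  [NumberField J] [Field M₂] [NumberField M₂] [Algebra K M] [Algebra K K₁] [Algebra K M₁]
  [Algebra M M₁] [Algebra K₁ M₁] [Algebra K J] [Algebra K M₂] [Algebra M M₂] [Algebra K₁ M₂]
  [Algebra M₁ M₂] [Algebra J M₂] {ε : K₁} {δ : M ≃ₐ[K] M} {P : (ZMod p)[X]} {a₀ : M₂ˣ}

/-- An automorphism which fixes `M₁` has order a power of `p`. -/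
theorem dvd_order (hB : SitB p K M K₁ M₁ J M₂ ε δ P a₀) (σ : M₂ ≃ₐ[K] M₂)
    (h1 : ∀ x : M₁, σ (algebraMap M₁ M₂ x) = algebraMap M₁ M₂ x) (h2 : σ ≠ 1) :
    p ∣ orderOf σ := by
  have := hB.t4
  have := hB.gJ
  have := hB.gM₂
  obtain ⟨l, hl⟩ := hB.degJ
  have hfix : ∀ n : ℕ, ∀ x : M₁, (σ ^ n) (algebraMap M₁ M₂ x) = algebraMap M₁ M₂ x := by
    intro n
    induction n with
    | zero => intro x; rfl
    | succ n ih =>
      intro x
      rw [pow_succ]
      show (σ ^ n) (σ (algebraMap M₁ M₂ x)) = _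
      rw [h1, ih]
  have h3 : σ ^ (p ^ l) = 1 := by
    apply hB.lin₂ _ (hfix _)
    intro x
    have h4 : (AlgEquiv.restrictNormal σ J) ^ (p ^ l) = 1 := by
      rw [← hl, ← IsGalois.card_aut_eq_finrank, Nat.card_eq_fintype_card]
      exact pow_card_eq_one
    have h5 : AlgEquiv.restrictNormalHom J (σ ^ (p ^ l)) = 1 := by
      rw [map_pow]
      exact h4
    have h6 := AlgEquiv.restrictNormal_commutes (σ ^ (p ^ l)) J x
    have h7 : (AlgEquiv.restrictNormal (σ ^ (p ^ l)) J) = 1 := h5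
    rw [h7] at h6
    exact h6.symm
  have h4 : orderOf σ ∣ p ^ l := orderOf_dvd_of_pow_eq_one h3
  obtain ⟨k, -, hk⟩ := (Nat.dvd_prime_pow hp.out).1 h4
  rcases Nat.eq_zero_or_pos k with rfl | hk0
  · rw [pow_zero, orderOf_eq_one_iff] at hk
    exact (h2 hk).elim
  · rw [hk]
    exact dvd_pow_self p hk0.ne'

/-- `σ a₀ = a₀ c^p` if `σ` fixes `ε`. -/
theorem om_fix (hB : SitB p K M K₁ M₁ J M₂ ε δ P a₀) (σ : M₂ ≃ₐ[K] M₂)
    (h1 : σ (algebraMap K₁ M₂ ε) = algebraMap K₁ M₂ ε) :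
    ∃ c : M₂, c ≠ 0 ∧ σ (a₀ : M₂) = (a₀ : M₂) * c ^ p := by
  have hp0 : p ≠ 0 := hp.out.ne_zero
  obtain ⟨n, c, hn, hc⟩ := hB.om σ
  have hc0 : c ≠ 0 := by
    rintro rfl
    rw [zero_pow hp0, mul_zero] at hc
    exact a₀.ne_zero ((map_eq_zero σ).1 hc)
  have hprim₂ : IsPrimitiveRoot (algebraMap K₁ M₂ ε) p :=
    hB.sit.prim.map_of_injective (algebraMap K₁ M₂).injective
  have hε0 : algebraMap K₁ M₂ ε ≠ 0 := hprim₂.ne_zero hp0
  have h2 : (algebraMap K₁ M₂ ε) ^ ((n : ℤ) - 1) = 1 := by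
    rw [zpow_sub₀ hε0, zpow_natCast, ← hn, h1, zpow_one, div_self hε0]
  obtain ⟨q, hq⟩ := (hprim₂.zpow_eq_one_iff_dvd _).1 h2
  refine ⟨(a₀ : M₂) ^ q * c, mul_ne_zero (zpow_ne_zero _ a₀.ne_zero) hc0, ?_⟩
  have e1 : (a₀ : M₂) ^ n = (a₀ : M₂) * ((a₀ : M₂) ^ q) ^ p := by
    rw [← zpow_natCast (a₀ : M₂) n, ← zpow_natCast ((a₀ : M₂) ^ q) p, ← zpow_mul, mul_comm q,
      ← hq, zpow_sub₀ a₀.ne_zero, zpow_one, mul_div_cancel₀ _ a₀.ne_zero]
  rw [hc, e1, mul_pow, mul_assoc]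

theorem no_locPow (hB : SitB p K M K₁ M₁ J M₂ ε δ P a₀) (W : HeightOneSpectrum (𝓞 M₂))
    (hW : W.valuation M₂ (p : M₂) = 1) (σ : M₂ ≃ₐ[K] M₂)
    (h1 : ∀ x : M₁, σ (algebraMap M₁ M₂ x) = algebraMap M₁ M₂ x) (h2 : σ ≠ 1)
    (hσ : ∀ y : M₂, W.valuation M₂ (σ y) = W.valuation M₂ y) (t : M₁) (ht : t ≠ 0) :
    ¬ LocPow p W ((a₀ : M₂) * algebraMap M₁ M₂ t) := by
  have hp0 : p ≠ 0 := hp.out.ne_zero
  have := hB.t3
  rintro ⟨y, hy⟩
  have hy0 : y ≠ 0 := by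
    rintro rfl
    rw [zero_pow hp0, mul_zero, zero_sub, Valuation.map_neg, map_one] at hy
    exact lt_irrefl _ hy
  have hε : σ (algebraMap K₁ M₂ ε) = algebraMap K₁ M₂ ε := by
    rw [IsScalarTower.algebraMap_apply K₁ M₁ M₂, h1]
  obtain ⟨c, hc0, hc⟩ := om_fix hB σ hε
  have hprim₂ : IsPrimitiveRoot (algebraMap K₁ M₂ ε) p :=
    hB.sit.prim.map_of_injective (algebraMap K₁ M₂).injective
  have ht0 : algebraMap M₁ M₂ t ≠ 0 := (_root_.map_ne_zero _).2 ht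
  -- apply `σ` and divide
  have h3 : W.valuation M₂ ((a₀ : M₂) * c ^ p * algebraMap M₁ M₂ t * (σ y) ^ p - 1) < 1 := by
    have h4 := hσ ((a₀ : M₂) * algebraMap M₁ M₂ t * y ^ p - 1)
    rw [map_sub, map_mul, map_mul, map_pow, map_one, hc, h1] at h4
    rw [h4]
    exact hy
  have h4 : W.valuation M₂ ((c * (σ y / y)) ^ p - 1) < 1 := by
    have h5 := val_mul_sub W h3 (val_inv_sub W hy)
    have e : (a₀ : M₂) * c ^ p * algebraMap M₁ M₂ t * (σ y) ^ p *
        ((a₀ : M₂) * algebraMap M₁ M₂ t * y ^ p)⁻¹ = (c * (σ y / y)) ^ p := by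
      rw [mul_pow, div_pow]
      have := a₀.ne_zero
      field_simp
    rwa [e] at h5
  obtain ⟨i, hi⟩ := root_close W hprim₂ h4
  -- the norm
  have hσs : ∀ (s : ℕ) (z : M₂), W.valuation M₂ ((σ ^ s) z) = W.valuation M₂ z := by
    intro s
    induction s with
    | zero => intro z; rfl
    | succ s ih =>
      intro z
      rw [pow_succ]
      show W.valuation M₂ ((σ ^ s) (σ z)) = _
      rw [ih, hσ]
  have hσε : ∀ s : ℕ, (σ ^ s) (algebraMap K₁ M₂ ε) = algebraMap K₁ M₂ ε := by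
    intro s
    induction s with
    | zero => rfl
    | succ s ih =>
      rw [pow_succ]
      show (σ ^ s) (σ _) = _
      rw [hε, ih]
  set n : ℕ := orderOf σ with hn
  have hpn : p ∣ n := dvd_order hB σ h1 h2
  have h5 : W.valuation M₂ (∏ s ∈ Finset.range n,
      (σ ^ s) (c * (σ y / y) * ((algebraMap K₁ M₂ ε) ^ i)⁻¹) - 1) < 1 := by
    have h6 : ∀ m : ℕ, W.valuation M₂ (∏ s ∈ Finset.range m,
        (σ ^ s) (c * (σ y / y) * ((algebraMap K₁ M₂ ε) ^ i)⁻¹) - 1) < 1 := by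
      intro m
      induction m with
      | zero => rw [Finset.range_zero, Finset.prod_empty, sub_self, map_zero]; exact zero_lt_one
      | succ m ih =>
        rw [Finset.prod_range_succ]
        refine val_mul_sub W ih ?_
        have h7 := hσs m (c * (σ y / y) * ((algebraMap K₁ M₂ ε) ^ i)⁻¹ - 1)
        rw [map_sub, map_one] at h7
        rw [h7]
        exact hi
    exact h6 n
  have h6 : ∏ s ∈ Finset.range n, (σ ^ s) (c * (σ y / y) * ((algebraMap K₁ M₂ ε) ^ i)⁻¹) =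
      ∏ s ∈ Finset.range n, (σ ^ s) c := by
    have e1 : ∀ s : ℕ, (σ ^ s) (c * (σ y / y) * ((algebraMap K₁ M₂ ε) ^ i)⁻¹) =
        (σ ^ s) c * (σ ^ s) (σ y / y) * ((algebraMap K₁ M₂ ε) ^ i)⁻¹ := by
      intro s
      rw [map_mul, map_mul, map_inv₀, map_pow, hσε]
    rw [Finset.prod_congr rfl fun s _ => e1 s, Finset.prod_mul_distrib, Finset.prod_mul_distrib,
      prod_tele σ hy0, Finset.prod_const, Finset.card_range, hn, pow_orderOf_eq_one]
    obtain ⟨q, hq⟩ := hpn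
    have e2 : (((algebraMap K₁ M₂ ε) ^ i)⁻¹) ^ (orderOf σ) = 1 := by
      rw [← hn, hq, inv_pow, ← pow_mul, show i * (p * q) = p * (i * q) by ring, pow_mul,
        hprim₂.pow_eq_one, one_pow, inv_one]
    rw [e2]
    show _ * (y / y) * 1 = _
    rw [div_self hy0, mul_one, mul_one]
  rw [h6] at h5
  have h7 : (∏ s ∈ Finset.range n, (σ ^ s) c) ^ p = 1 := by
    have h8 := prod_tele σ a₀.ne_zero n
    rw [hn, pow_orderOf_eq_one] at h8
    have h9 : (1 : M₂ ≃ₐ[K] M₂) (a₀ : M₂) / (a₀ : M₂) = 1 := div_self a₀.ne_zero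
    rw [h9, hc, mul_div_cancel_left₀ _ a₀.ne_zero] at h8
    rw [← Finset.prod_pow, ← h8, ← hn]
    exact Finset.prod_congr rfl fun s _ => by rw [map_pow]
  exact hB.cyc σ h1 h2 c hc (one_of_close W h7 h5 hW)

theorem v_nsp : V_NSP := by
  intro p hp K M K₁ M₁ J M₂ _ _ _ _ _ _ _ _ _ _ _ _ _ _ _ _ _ _ _ _ _ _ _ ε δ P a₀ hB W hW σ h1
    h2 hσ a x hx
  have hp0 : p ≠ 0 := hp.out.ne_zero
  have := hB.t2
  have := hB.t3
  obtain ⟨i, hi⟩ := hx
  set A : M₂ := (-1) ^ (p - 1) * ((a₀ : M₂) * algebraMap K₁ M₂ (a : K₁)) with hA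
  have hA0 : A ≠ 0 := mul_ne_zero (pow_ne_zero _ (neg_ne_zero.2 one_ne_zero))
    (mul_ne_zero a₀.ne_zero ((_root_.map_ne_zero _).2 a.ne_zero))
  by_cases hpi : p ∣ i
  · obtain ⟨q, rfl⟩ := hpi
    have e : algebraMap M M₂ (x : M) * A ^ (p * q) = algebraMap M M₂ (x : M) * (A ^ q) ^ p := by
      rw [← pow_mul, mul_comm q p]
    rw [e] at hi
    exact Pool.Agent.Helper8.PP.dvd_of_locPow W hp0 ((locPow_mul_pth W (pow_ne_zero _ hA0)).1 hi)
  · exfalso
    obtain ⟨j, hj⟩ : ∃ j : ℕ, i * j ≡ 1 [MOD p] := by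
      have h3 : i.Coprime p := ((hp.out.coprime_iff_not_dvd).2 hpi).symm
      exact Nat.exists_mul_mod_eq_one_of_coprime h3 hp.out.one_lt |>.imp fun j h => by
        rw [Nat.ModEq, h.2, Nat.mod_eq_of_lt hp.out.one_lt]
    obtain ⟨q, hq⟩ : ∃ q : ℕ, i * j = 1 + p * q := by
      have h4 : 1 ≤ i * j := by
        rw [Nat.one_le_iff_ne_zero]
        intro h0
        rw [h0] at hj
        have := (Nat.modEq_iff_dvd' (Nat.zero_le 1)).1 hj
        rw [Nat.sub_zero, Nat.dvd_one] at this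
        exact hp.out.one_lt.ne' this
      obtain ⟨q, hq⟩ := (Nat.modEq_iff_dvd' h4).1 hj.symm
      exact ⟨q, by omega⟩
    have h5 := locPow_pow W hi j
    have e : (algebraMap M M₂ (x : M) * A ^ i) ^ j = (a₀ : M₂) * algebraMap M₁ M₂
        ((algebraMap M M₁ (x : M)) ^ j * ((-1) ^ (p - 1) * algebraMap K₁ M₁ (a : K₁))) *
        (A ^ q) ^ p := by
      rw [mul_pow, ← pow_mul, hq, pow_add, pow_one, map_mul, map_mul, map_pow, map_pow, map_neg,
        map_one, ← IsScalarTower.algebraMap_apply M M₁ M₂, ← IsScalarTower.algebraMap_apply K₁ M₁ M₂,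
        ← pow_mul, mul_comm q p]
      nth_rewrite 1 [hA]
      ring
    rw [e] at h5
    refine no_locPow hB W hW σ h1 h2 hσ _ ?_ ((locPow_mul_pth W (pow_ne_zero _ hA0)).1 h5)
    exact mul_ne_zero (pow_ne_zero _ ((_root_.map_ne_zero _).2 x.ne_zero))
      (mul_ne_zero (pow_ne_zero _ (neg_ne_zero.2 one_ne_zero))
        ((_root_.map_ne_zero _).2 a.ne_zero))

end main

end Pool.Agent.Helper42.PB
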